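import Pool.Agent.SYM.Sys5

/-!
# SYM/Up5: Keane's condition and the asymptotic critical exponent of the symmetric exchange of five intervals
-/

set_option autoImplicit false

namespace Pool.Agent.SYM

open Pool.Agent.RTX
open Pool.Agent.Helper44.IET

theorem tower {d : ℕ} {E : Exchange d} {R : Rows} {σ : ℕ → List ℕ} {lam : ℕ → ℝ} {P S : ℕ → ℕ}
    (g : GX E R σ lam P S) (hB : Bij E) {e f q r : ℕ} (he : e < d) (hf : f < d) {y z : ℝ} (hy : inJ R lam e y)
    (hz : inJ R lam f z) (hq : q < (σ e).length) (hr : r < (σ f).length) (h : E.T^[q] y = E.T^[r] z) :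
    y = z ∧ q = r := by
  have hpt : ∀ w ∈ R.top, 0 < lam w := fun w hw => g.geo.pos w ((ri_mem_top g.geo.ri w).1 hw)
  have t1 := ps_le_tot hpt ((ri_mem_top g.geo.ri _).2 he)
  have t2 := ps_le_tot hpt ((ri_mem_top g.geo.ri _).2 hf)
  obtain ⟨_, v1⟩ := g.geo.vis _ he _ hy 0 (by omega)
  obtain ⟨_, v2⟩ := g.geo.vis _ hf _ hz 0 (by omega)
  have b1 := hB.iv _ _ v1
  have b2 := hB.iv _ _ v2
  rw [Function.iterate_zero, id] at b1 b2
  rcases Nat.le_total r q with h1 | h1
  · obtain ⟨s, rfl⟩ : ∃ s, q = r + s := ⟨q - r, by omega⟩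
    rw [Function.iterate_add_apply] at h
    have m1 := map_it hB b1.1 b1.2 s
    have h2 := inj_it hB m1.1 m1.2 b2.1 b2.2 r h
    rcases Nat.eq_zero_or_pos s with h3 | h3
    · subst h3
      exact ⟨h2, rfl⟩
    · exfalso
      have h4 := g.fr _ he _ hy s h3 (by omega)
      rw [h2] at h4
      linarith [hz.2]
  · obtain ⟨s, rfl⟩ : ∃ s, r = q + s := ⟨r - q, by omega⟩
    rw [Function.iterate_add_apply] at h
    have m1 := map_it hB b2.1 b2.2 s
    have h2 := inj_it hB b1.1 b1.2 m1.1 m1.2 q h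
    rcases Nat.eq_zero_or_pos s with h3 | h3
    · subst h3
      exact ⟨h2, rfl⟩
    · exfalso
      have h4 := g.fr _ hf _ hz s h3 (by omega)
      rw [← h2] at h4
      linarith [hy.2]

theorem noC : ∀ i < 5, ∀ j < 5, 0 < j →
    (na (1000 * (psZ (tL 0) i (tR 0).bot - psZ (tL 0) j (tR 0).top) - (1, 0)) = true ∨
      na (1000 * (psZ (tL 0) j (tR 0).top - psZ (tL 0) i (tR 0).bot) - (1, 0)) = true) := by decide +kernel

theorem no_conn (i j : Fin 5) (hj : 0 < (j : ℕ)) (k : ℕ) (h : E5.T^[k] (E5.left i) = E5.left j) : k = 0 := by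
  by_contra hk
  have hk' : 0 < k := Nat.pos_of_ne_zero hk
  have hn := hts5 k
  have g := gx5 (16 * (k + 1))
  have hB := lv5.bij
  have hri := g.geo.ri
  have hlam := sL_eq k 0 (by norm_num)
  have hR := sR_per k 0 (by norm_num)
  simp only [Nat.add_zero] at hlam hR
  have hJ : ∀ x < 5, inJ (sR (16 * (k + 1))) (sL (16 * (k + 1))) x (ps (sL (16 * (k + 1))) x (sR (16 * (k + 1))).top) := fun x hx =>
    ⟨le_refl _, by linarith [g.geo.pos x hx]⟩
  have hpt : ∀ w ∈ (sR (16 * (k + 1))).top, 0 < sL (16 * (k + 1)) w := fun w hw => g.geo.pos w ((ri_mem_top hri w).1 hw)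
  have hpb : ∀ w ∈ (sR (16 * (k + 1))).bot, 0 < sL (16 * (k + 1)) w := fun w hw => g.geo.pos w ((ri_mem_bot hri w).1 hw)
  have gi := g.gp i
  have gj := g.gp j
  have hlj := g.len j j.2
  have hli := g.len i i.2
  rw [← gi, ← gj, ← Function.iterate_add_apply] at h
  rcases Nat.lt_or_ge (k + (sPS (16 * (k + 1))).1 i) (sW (16 * (k + 1)) i).length with h1 | h1
  · obtain ⟨h2, h3⟩ := tower g hB i.2 j.2 (hJ i i.2) (hJ j j.2) h1 (by omega) h
    have h4 : (i : ℕ) = j := ps_disj (ri_nd_top hri) hpt ((ri_mem_top hri _).2 i.2) ((ri_mem_top hri _).2 j.2)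
      (hJ i i.2).1 (hJ i i.2).2 (by rw [h2]) (by rw [h2]; exact (hJ j j.2).2)
    rw [h4] at h3
    omega
  · obtain ⟨q, hq⟩ : ∃ q, k + (sPS (16 * (k + 1))).1 i = q + (sW (16 * (k + 1)) i).length :=
      ⟨k + (sPS (16 * (k + 1))).1 i - (sW (16 * (k + 1)) i).length, by omega⟩
    have hr := g.geo.ret i i.2 _ (hJ i i.2)
    rw [hq, Function.iterate_add_apply, hr] at h
    have e1 : ps (sL (16 * (k + 1))) i (sR (16 * (k + 1))).top - ps (sL (16 * (k + 1))) i (sR (16 * (k + 1))).top +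
      ps (sL (16 * (k + 1))) i (sR (16 * (k + 1))).bot = ps (sL (16 * (k + 1))) i (sR (16 * (k + 1))).bot := by ring
    rw [e1] at h
    have c1 := ps_nonneg hpb (i : ℕ)
    have c2 := ps_le_tot hpb ((ri_mem_bot hri _).2 i.2)
    have c3 := g.geo.pos i i.2
    have c4 : tot (sL (16 * (k + 1))) (sR (16 * (k + 1))).bot = tot (sL (16 * (k + 1))) (sR (16 * (k + 1))).top :=
      tot_perm _ (hri.bot.trans hri.top.symm)
    obtain ⟨e, he, he1, he2⟩ := ps_find (ri_nd_top hri) hpt c1 (by rw [← c4]; linarith)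
    have hed := (ri_mem_top hri e).1 he
    obtain ⟨h2, -⟩ := tower g hB hed j.2 ⟨he1, he2⟩ (hJ j j.2) (by have := hn e hed; omega) (by omega) h
    rw [hR, ps_z hlam i _ (rowL 0 (by norm_num)).2, ps_z hlam j _ (rowL 0 (by norm_num)).1] at h2
    have hr0 : (0 : ℝ) < ww * (aa ^ 2) ^ k := by have := aa_pos; have := ww_pos; positivity
    have h3 := mul_left_cancel₀ hr0.ne' h2
    rcases noC i i.2 j j.2 hj with h4 | h4
    · have := va_lt h4
      linarith
    · have := va_lt h4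
      linarith

theorem left_mem (i : Fin 5) : E5.left i ∈ E5.interval i := ⟨le_refl _, by linarith [E5.len_pos i]⟩

theorem keane5 : E5.Keane := by
  have key : ∀ i j : Fin 5, 0 < (j : ℕ) → ∀ m n : ℕ, n ≤ m → E5.T^[m] (E5.left i) = E5.T^[n] (E5.left j) →
      i = j ∧ m = n := by
    intro i j hj m n hnm h
    obtain ⟨k, rfl⟩ : ∃ k, m = n + k := ⟨m - n, by omega⟩
    rw [Function.iterate_add_apply] at h
    have hB := lv5.bij
    have b1 := hB.iv i _ (left_mem i)
    have b2 := hB.iv j _ (left_mem j)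
    have b3 := map_it hB b1.1 b1.2 k
    have h1 := inj_it hB b3.1 b3.2 b2.1 b2.2 n h
    have h2 := no_conn i j hj k h1
    subst h2
    refine ⟨?_, rfl⟩
    have h3 : E5.left i = E5.left j := h1
    have h4 := left_mem i
    rw [h3] at h4
    exact E5.interval_inj h4 (left_mem j)
  intro i j hi hj m n h
  rcases Nat.le_total n m with h1 | h1
  · exact key i j hj m n h1 h
  · obtain ⟨h2, h3⟩ := key j i hi n m h1 h.symm
    exact ⟨h2.symm, h3.symm⟩

/-- every exchange has codings -/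
theorem cod_ex : ∃ u : ℕ → Fin 5, E5.IsCoding u := by
  have hB := lv5.bij
  have h : ∀ n, ∃ i : Fin 5, E5.T^[n] (0 : ℝ) ∈ E5.interval i := by
    intro n
    have h1 := map_it hB (le_refl (0 : ℝ)) one_pos n
    exact hB.mem _ h1.1 h1.2
  choose u hu using h
  exact ⟨u, 0, ⟨le_refl _, one_pos⟩, hu⟩

theorem th_eq : 1 + th = (11 + Real.sqrt 13) / 6 := by
  unfold th be; ring

theorem asym_of {A : Type*} {u : ℕ → A} {κ : ℝ}
    (h : ∀ ε : ℝ, 0 < ε → ∃ C : ℝ, 0 ≤ C ∧ ∀ i p l : ℕ, 0 < p → HasPower u i p l → (l : ℝ) ≤ (κ + ε) * p + C) :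
    asympCritExp u ≤ (κ : EReal) := by
  have hfin : critExp u ≠ ⊤ := by
    obtain ⟨C, hC, hb⟩ := h 1 one_pos
    have h1 : critExp u ≤ ((κ + 1 + C : ℝ) : EReal) := by
      refine iSup_le fun i => iSup_le fun p => iSup_le fun l => iSup_le fun hp => iSup_le fun hpow => ?_
      rw [EReal.coe_le_coe_iff]
      have hp' : (1 : ℝ) ≤ p := by exact_mod_cast hp
      rw [div_le_iff₀ (by linarith)]
      have h2 := hb i p l hp hpow
      nlinarith
    exact ne_top_of_le_ne_top (EReal.coe_ne_top _) h1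
  unfold asympCritExp
  rw [if_neg hfin]
  have h2 : ∀ ε : ℝ, 0 < ε → (⨅ n : ℕ, critExpFrom u n) ≤ ((κ + ε : ℝ) : EReal) := by
    intro ε hε
    obtain ⟨C, hC, hb⟩ := h (ε / 2) (by linarith)
    obtain ⟨n, hn⟩ := exists_nat_ge (C / (ε / 2))
    have hn' : C ≤ n * (ε / 2) := by
      rwa [div_le_iff₀ (by linarith)] at hn
    refine (iInf_le _ n).trans ?_
    refine iSup_le fun i => iSup_le fun p => iSup_le fun l => iSup_le fun hp => iSup_le fun hnp =>
      iSup_le fun hpow => ?_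
    rw [EReal.coe_le_coe_iff]
    have hp' : (1 : ℝ) ≤ p := by exact_mod_cast hp
    have hnp' : (n : ℝ) ≤ p := by exact_mod_cast hnp
    rw [div_le_iff₀ (by linarith)]
    have h3 := hb i p l hp hpow
    nlinarith
  refine le_of_forall_gt_imp_ge_of_dense fun a ha => ?_
  induction a with
  | bot => exact absurd ha not_lt_bot
  | top => exact le_top
  | coe r =>
    rw [EReal.coe_lt_coe_iff] at ha
    have h3 := h2 (r - κ) (by linarith)
    rw [show κ + (r - κ) = r by ring] at h3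
    exact h3

theorem up5 {u : ℕ → Fin 5} (hu : E5.IsCoding u) : asympCritExp u ≤ (((11 + Real.sqrt 13) / 6 : ℝ) : EReal) := by
  rw [← th_eq]
  have hth : 0 ≤ th := th_pos
  have hth2 : th ≤ 2 := by have := th_le; linarith
  refine asym_of fun ε hε => ?_
  obtain ⟨C, hC, hg⟩ := good5 (ε := ε / 2) (by linarith)
  refine ⟨C, hC, fun i p l hp hpow => ?_⟩
  have h1 := pow_le lv5 (K := (1 + ε / 2) * th) (C := C) (by positivity) hC hg hu hp hpow
  have hp' : (0 : ℝ) ≤ p := Nat.cast_nonneg p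
  have h2 : (1 + ε / 2) * th ≤ th + ε := by nlinarith
  nlinarith

theorem upX {u : ℕ → Fin 5} (hu : E5.IsCoding u) : critExp u ≤ ((353 / 145 : ℝ) : EReal) := by
  refine iSup_le fun i => iSup_le fun p => iSup_le fun l => iSup_le fun hp => iSup_le fun hpow => ?_
  rw [EReal.coe_le_coe_iff]
  have hp' : (1 : ℝ) ≤ p := by exact_mod_cast hp
  rw [div_le_iff₀ (by linarith)]
  have h1 := pow_le lv5 (K := 208 / 145) (C := 0) (by norm_num) (le_refl _) goodX hu hp hpow
  linarith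

end Pool.Agent.SYM
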