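import Pool.Agent.RTX.SysX

/-!
# SYM/GX: levels of the Rauzy induction with exact positions of the cuts, first returns and entrance times
-/

set_option autoImplicit false

namespace Pool.Agent.SYM

open Pool.Agent.RTX
open Pool.Agent.Helper44.IET (Exchange)

/-- One level: `Geo`, the lengths of the words, the times between the cuts of the level and the cuts of the exchange
(forward in the top row, backward in the bottom row), the first return property, and a bound for the entrance times. -/
structure GX {d : ℕ} (E : Exchange d) (R : Rows) (σ : ℕ → List ℕ) (lam : ℕ → ℝ) (P S : ℕ → ℕ) : Prop where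
  geo : Geo E R σ lam
  len : ∀ x < d, (σ x).length = P x + S x + 1
  gp : ∀ z : Fin d, E.T^[P z] (ps lam z R.top) = E.left z
  gs : ∀ z : Fin d, E.T^[S z] (E.imageLeft z) = ps lam z R.bot
  fr : ∀ x < d, ∀ z, inJ R lam x z → ∀ s, 0 < s → s < (σ x).length → tot lam R.top ≤ E.T^[s] z
  hit : ∃ H : ℕ, ∀ z : ℝ, 0 ≤ z → z < 1 → ∃ j ≤ H, 0 ≤ E.T^[j] z ∧ E.T^[j] z < tot lam R.top

theorem ne_top {d : ℕ} {R : Rows} (h : RI d R) : R.top ≠ [] := by
  intro h0
  have h1 := (ri_len h).1
  rw [h0] at h1
  have h2 := h.two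
  simp only [List.length_nil] at h1
  omega

theorem ne_bot {d : ℕ} {R : Rows} (h : RI d R) : R.bot ≠ [] := by
  intro h0
  have h1 := (ri_len h).2
  rw [h0] at h1
  have h2 := h.two
  simp only [List.length_nil] at h1
  omega

theorem tot_step {d : ℕ} {R : Rows} (h : RI d R) (lam : ℕ → ℝ) (c : Bool) :
    tot (stepL c R lam) (step c R).top = tot lam R.top - lam (los c R) := by
  obtain ⟨ha, hb, hab⟩ := ri_ab h
  cases c with
  | false =>
    have h1 := ri_step h false
    have hp : ((step false R).top).Perm (ins R.a (lst R.bot) R.bot.dropLast) := h1.top.trans h1.bot.symm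
    rw [tot_perm (stepL false R lam) hp]
    rw [tot_ins (lam := lam) (mu := stepL false R lam) (a := R.a) (l := R.bot) (ri_nd_bot h)
      ((ri_mem_bot h _).2 ha) hab ?_ ?_]
    · rw [tot_perm lam (h.bot.trans h.top.symm)]
      rfl
    · show (if R.a = win false R then lam R.a - lam (los false R) else lam R.a) = lam R.a - lam (lst R.bot)
      have w1 : win false R = R.a := rfl
      rw [w1, if_pos rfl]
      rfl
    · intro z _ hz
      show (if z = win false R then lam z - lam (los false R) else lam z) = lam z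
      have w1 : win false R = R.a := rfl
      rw [w1, if_neg hz]
  | true =>
    have e : (step true R).top = ins R.b (lst R.top) R.top.dropLast := rfl
    rw [e]
    rw [tot_ins (lam := lam) (mu := stepL true R lam) (a := R.b) (l := R.top) (ri_nd_top h)
      ((ri_mem_top h _).2 hb) (fun h1 => hab h1.symm) ?_ ?_]
    · rfl
    · show (if R.b = win true R then lam R.b - lam (los true R) else lam R.b) = lam R.b - lam (lst R.top)
      have w1 : win true R = R.b := rfl
      rw [w1, if_pos rfl]
      rfl
    · intro z _ hz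
      show (if z = win true R then lam z - lam (los true R) else lam z) = lam z
      have w1 : win true R = R.b := rfl
      rw [w1, if_neg hz]

/-- entrance into the smaller interval after at most `|σ a|` steps -/
theorem enter2 {d : ℕ} {E : Exchange d} {R : Rows} {σ : ℕ → List ℕ} {lam : ℕ → ℝ} (h : Geo E R σ lam) {c : Bool}
    (hc : lam (los c R) < lam (win c R)) {z : ℝ} (h0 : 0 ≤ z) (h1 : z < tot lam R.top) :
    ∃ n ≤ (σ R.a).length, 0 ≤ E.T^[n] z ∧ E.T^[n] z < tot (stepL c R lam) (step c R).top := by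
  rw [tot_step h.ri]
  obtain ⟨ha, hb, hab⟩ := ri_ab h.ri
  by_cases hz : z < tot lam R.top - lam (los c R)
  · exact ⟨0, Nat.zero_le _, h0, hz⟩
  push Not at hz
  have hla : lam (los c R) ≤ lam R.a := by
    cases c with
    | false => exact hc.le
    | true => exact le_refl _
  have hlb : lam (los c R) ≤ lam R.b := by
    cases c with
    | false => exact le_refl _
    | true => exact hc.le
  have e1 : ps lam R.a R.top = tot lam R.top - lam R.a := ps_lst (ri_nd_top h.ri) (ne_top h.ri)
  have hJ : inJ R lam R.a z := by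
    refine ⟨?_, ?_⟩
    · rw [e1]; linarith
    · rw [e1]; linarith
  have hpb : ∀ w ∈ R.bot, 0 < lam w := fun w hw => h.pos w ((ri_mem_bot h.ri w).1 hw)
  have h2 := h.ret R.a ha z hJ
  have h3 : 0 ≤ ps lam R.a R.bot := ps_nonneg hpb R.a
  have h4 : ps lam R.a R.bot + lam R.a ≤ tot lam R.bot - lam R.b :=
    ps_le_lst (ri_nd_bot h.ri) hpb ((ri_mem_bot h.ri _).2 ha) hab
  have h5 : tot lam R.bot = tot lam R.top := tot_perm lam (h.ri.bot.trans h.ri.top.symm)
  obtain ⟨hJ0, hJ1⟩ := hJ
  refine ⟨(σ R.a).length, le_refl _, ?_, ?_⟩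
  · rw [h2]; linarith
  · rw [h2]; linarith

theorem hit_step {d : ℕ} {E : Exchange d} {R : Rows} {σ : ℕ → List ℕ} {lam : ℕ → ℝ} (h : Geo E R σ lam) {c : Bool}
    (hc : lam (los c R) < lam (win c R))
    (hh : ∃ H : ℕ, ∀ z : ℝ, 0 ≤ z → z < 1 → ∃ j ≤ H, 0 ≤ E.T^[j] z ∧ E.T^[j] z < tot lam R.top) :
    ∃ H : ℕ, ∀ z : ℝ, 0 ≤ z → z < 1 → ∃ j ≤ H, 0 ≤ E.T^[j] z ∧
      E.T^[j] z < tot (stepL c R lam) (step c R).top := by
  obtain ⟨H, hH⟩ := hh
  refine ⟨(σ R.a).length + H, fun z h0 h1 => ?_⟩
  obtain ⟨j, hj, h2, h3⟩ := hH z h0 h1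
  obtain ⟨n, hn, h4, h5⟩ := enter2 h hc h2 h3
  refine ⟨n + j, by omega, ?_, ?_⟩
  · rw [Function.iterate_add_apply]; exact h4
  · rw [Function.iterate_add_apply]; exact h5

theorem gx_true {d : ℕ} {E : Exchange d} {R : Rows} {σ : ℕ → List ℕ} {lam : ℕ → ℝ} {P S : ℕ → ℕ}
    (g : GX E R σ lam P S) (hlt : lam R.a < lam R.b) :
    GX E (step true R) (stepW true R σ) (stepL true R lam) (stepP true R P S) (stepS true R P S) := by
  have h := g.geo
  have hri := h.ri
  obtain ⟨had, hbd, hab⟩ := ri_ab hri
  have ndt := ri_nd_top hri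
  have ndb := ri_nd_bot hri
  have hat : R.a ∈ R.top := (ri_mem_top hri _).2 had
  have hbt : R.b ∈ R.top := (ri_mem_top hri _).2 hbd
  have hbb : R.b ∈ R.bot := (ri_mem_bot hri _).2 hbd
  have hbl : R.b ≠ lst R.top := fun e => hab e.symm
  have mub : stepL true R lam R.b = lam R.b - lam R.a := if_pos rfl
  have mux : ∀ z, z ≠ R.b → stepL true R lam z = lam z := fun z hz => if_neg hz
  have wa : stepW true R σ R.a = σ R.b ++ σ R.a := if_pos rfl
  have wx : ∀ z, z ≠ R.a → stepW true R σ z = σ z := fun z hz => if_neg hz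
  have Pa : stepP true R P S R.a = P R.a + (P R.b + S R.b + 1) := if_pos ⟨rfl, rfl⟩
  have Px : ∀ z, z ≠ R.a → stepP true R P S z = P z := fun z hz => if_neg fun hh => hz hh.2
  have Sx : ∀ z, stepS true R P S z = S z := fun z => if_neg fun hh => absurd hh.1 (by decide)
  have pt : ∀ x < d, x ≠ R.a → ps (stepL true R lam) x (step true R).top = ps lam x R.top := by
    intro x hx hxa
    exact ps_ins ndt hbt hbl mub (fun z _ hz => mux z hz) ((ri_mem_top hri _).2 hx) hxa
  have pta : ps (stepL true R lam) R.a (step true R).top = ps lam R.b R.top + (lam R.b - lam R.a) :=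
    ps_ins_b ndt hbt hbl mub (fun z _ hz => mux z hz)
  have pb : ∀ x < d, ps (stepL true R lam) x (step true R).bot = ps lam x R.bot := by
    intro x hx
    exact (ps_last ndb (fun z _ hz => (mux z hz).symm) ((ri_mem_bot hri _).2 hx)).symm
  have ea : ps lam R.a R.top = tot lam R.top - lam R.a := ps_lst ndt (List.ne_nil_of_mem hat)
  have eb : ps lam R.b R.bot = tot lam R.bot - lam R.b := ps_lst ndb (List.ne_nil_of_mem hbb)
  have et : tot lam R.top = tot lam R.bot := tot_perm lam (hri.top.trans hri.bot.symm)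
  have hpa := h.pos _ had
  have ets : tot (stepL true R lam) (step true R).top = tot lam R.top - lam R.a := tot_step hri lam true
  have inb : ∀ z, inJ (step true R) (stepL true R lam) R.a z → inJ R lam R.b z := by
    intro z hz
    obtain ⟨h1, h2⟩ := hz
    rw [pta] at h1 h2
    rw [mux _ hab] at h2
    exact ⟨by linarith, by linarith⟩
  have ina : ∀ z, inJ (step true R) (stepL true R lam) R.a z →
      inJ R lam R.a (E.T^[(σ R.b).length] z) := by
    intro z hz
    have h3 := h.ret _ hbd z (inb z hz)
    obtain ⟨h1, h2⟩ := hz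
    rw [pta] at h1 h2
    rw [mux _ hab] at h2
    rw [h3]
    unfold inJ
    rw [ea, eb, et]
    exact ⟨by linarith, by linarith⟩
  have inx : ∀ x < d, x ≠ R.a → ∀ z, inJ (step true R) (stepL true R lam) x z → inJ R lam x z := by
    intro x hx hxa z hz
    obtain ⟨h1, h2⟩ := hz
    rw [pt x hx hxa] at h1 h2
    refine ⟨h1, ?_⟩
    by_cases hxb : x = R.b
    · subst hxb
      rw [mub] at h2
      linarith
    · rw [mux x hxb] at h2
      exact h2
  refine ⟨geo_true h hlt, ?_, ?_, ?_, ?_, hit_step h (c := true) hlt g.hit⟩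
  · intro x hx
    by_cases hxa : x = R.a
    · subst hxa
      rw [wa, Pa, Sx, List.length_append, g.len _ hbd, g.len _ had]
      ring
    · rw [wx x hxa, Px x hxa, Sx]
      exact g.len x hx
  · intro z
    by_cases hza : (z : ℕ) = R.a
    · have h1 : inJ R lam R.b (ps lam R.b R.top + (lam R.b - lam R.a)) :=
        ⟨by linarith, by linarith⟩
      rw [hza, Pa, pta, ← g.len _ hbd, Function.iterate_add_apply, h.ret _ hbd _ h1]
      have h2 := g.gp z
      rw [hza] at h2
      rw [← h2]
      congr 1
      rw [ea, eb, et]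
      ring
    · rw [Px z hza, pt z z.2 hza]
      exact g.gp z
  · intro z
    rw [Sx, pb z z.2]
    exact g.gs z
  · intro x hx z hz s hs1 hs2
    rw [ets]
    by_cases hxa : x = R.a
    · subst hxa
      rw [wa, List.length_append] at hs2
      rcases lt_trichotomy s (σ R.b).length with h3 | h3 | h3
      · have h4 := g.fr _ hbd z (inb z hz) s hs1 h3
        linarith
      · have h4 := (ina z hz).1
        rw [← h3, ea] at h4
        exact h4
      · obtain ⟨q, rfl⟩ : ∃ q, s = q + (σ R.b).length := ⟨s - (σ R.b).length, by omega⟩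
        have h4 := g.fr _ had _ (ina z hz) q (by omega) (by omega)
        rw [Function.iterate_add_apply]
        linarith
    · rw [wx x hxa] at hs2
      have h4 := g.fr x hx z (inx x hx hxa z hz) s hs1 hs2
      linarith

theorem gx_false {d : ℕ} {E : Exchange d} {R : Rows} {σ : ℕ → List ℕ} {lam : ℕ → ℝ} {P S : ℕ → ℕ}
    (g : GX E R σ lam P S) (hlt : lam R.b < lam R.a) :
    GX E (step false R) (stepW false R σ) (stepL false R lam) (stepP false R P S) (stepS false R P S) := by
  have h := g.geo
  obtain ⟨ha, hb, hab⟩ := ri_ab h.ri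
  have ndt := ri_nd_top h.ri
  have ndb := ri_nd_bot h.ri
  have mt := ri_mem_top h.ri
  have mb := ri_mem_bot h.ri
  have net : R.top ≠ [] := List.ne_nil_of_mem ((mt _).2 ha)
  have neb : R.bot ≠ [] := List.ne_nil_of_mem ((mb _).2 ha)
  have mu_a : stepL false R lam R.a = lam R.a - lam R.b := if_pos rfl
  have mu_x : ∀ x, x ≠ R.a → stepL false R lam x = lam x := fun x hx => if_neg hx
  have W_b : stepW false R σ R.b = σ R.b ++ σ R.a := if_pos rfl
  have W_x : ∀ x, x ≠ R.b → stepW false R σ x = σ x := fun x hx => if_neg hx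
  have Sb : stepS false R P S R.b = S R.b + (P R.a + S R.a + 1) := if_pos ⟨rfl, rfl⟩
  have Sx : ∀ z, z ≠ R.b → stepS false R P S z = S z := fun z hz => if_neg fun hh => hz hh.2
  have Px : ∀ z, stepP false R P S z = P z := fun z => if_neg fun hh => absurd hh.1 (by decide)
  have hpb := h.pos R.b hb
  have mu_le : ∀ x < d, stepL false R lam x ≤ lam x := by
    intro x hx
    by_cases hxa : x = R.a
    · rw [hxa, mu_a]
      linarith
    · rw [mu_x x hxa]
  have top_eq : ∀ x < d, ps (stepL false R lam) x R.top = ps lam x R.top := by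
    intro x hx
    exact ps_last ndt (fun z _ hz2 => mu_x z hz2) ((mt x).2 hx)
  have bot_eq : ∀ x < d, x ≠ R.b → ps (stepL false R lam) x (step false R).bot = ps lam x R.bot := by
    intro x hx hxb
    exact ps_ins ndb ((mb _).2 ha) hab mu_a (fun z _ hz2 => mu_x z hz2) ((mb x).2 hx) hxb
  have bot_b : ps (stepL false R lam) R.b (step false R).bot = ps lam R.a R.bot + (lam R.a - lam R.b) :=
    ps_ins_b ndb ((mb _).2 ha) hab mu_a (fun z _ hz2 => mu_x z hz2)
  have hT : tot lam R.top = tot lam R.bot := tot_perm lam (h.ri.top.trans h.ri.bot.symm)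
  have pa : ps lam R.a R.top = tot lam R.top - lam R.a := ps_lst ndt net
  have pb : ps lam R.b R.bot = tot lam R.top - lam R.b := by
    rw [hT]
    exact ps_lst ndb neb
  have ets : tot (stepL false R lam) (step false R).top = tot lam R.top - lam R.b := tot_step h.ri lam false
  have inJ_of : ∀ x < d, ∀ z, inJ (step false R) (stepL false R lam) x z → inJ R lam x z := by
    intro x hx z hz
    have h1 : ps (stepL false R lam) x R.top ≤ z := hz.1
    have h2 : z < ps (stepL false R lam) x R.top + stepL false R lam x := hz.2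
    rw [top_eq x hx] at h1 h2
    exact ⟨h1, h2.trans_le (by linarith [mu_le x hx])⟩
  have key : ∀ z, inJ R lam R.b z → inJ R lam R.a (E.T^[(σ R.b).length] z) ∧
      tot lam R.top - lam R.b ≤ E.T^[(σ R.b).length] z := by
    intro z hz
    rw [h.ret R.b hb z hz, pb]
    have h1 := hz.1
    have h2 := hz.2
    refine ⟨⟨?_, ?_⟩, ?_⟩
    · rw [pa]
      linarith
    · rw [pa]
      linarith
    · linarith
  refine ⟨geo_false h hlt, ?_, ?_, ?_, ?_, hit_step h (c := false) hlt g.hit⟩
  · intro x hx
    by_cases hxb : x = R.b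
    · subst hxb
      rw [W_b, Px, Sb, List.length_append, g.len _ hb, g.len _ ha]
      ring
    · rw [W_x x hxb, Px, Sx x hxb]
      exact g.len x hx
  · intro z
    rw [Px]
    have h1 : ps (stepL false R lam) z (step false R).top = ps lam z R.top := top_eq z z.2
    rw [h1]
    exact g.gp z
  · intro z
    by_cases hzb : (z : ℕ) = R.b
    · rw [hzb, Sb, bot_b, ← g.len _ ha, add_comm, Function.iterate_add_apply]
      have h2 := g.gs z
      rw [hzb] at h2
      rw [h2]
      have h1 : inJ R lam R.a (ps lam R.b R.bot) := by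
        refine ⟨?_, ?_⟩
        · rw [pa, pb]
          linarith
        · rw [pa, pb]
          linarith
      rw [h.ret _ ha _ h1, pa, pb]
      ring
    · rw [Sx z hzb, bot_eq z z.2 hzb]
      exact g.gs z
  · intro x hx z hz s hs1 hs2
    rw [ets]
    have hz' := inJ_of x hx z hz
    by_cases hxb : x = R.b
    · subst hxb
      rw [W_b, List.length_append] at hs2
      rcases lt_trichotomy s (σ R.b).length with h3 | h3 | h3
      · have h4 := g.fr _ hb z hz' s hs1 h3
        linarith
      · rw [h3]
        exact (key z hz').2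
      · obtain ⟨q, rfl⟩ : ∃ q, s = q + (σ R.b).length := ⟨s - (σ R.b).length, by omega⟩
        have h4 := g.fr _ ha _ (key z hz').1 q (by omega) (by omega)
        rw [Function.iterate_add_apply]
        linarith
    · rw [W_x x hxb] at hs2
      have h4 := g.fr x hx z hz' s hs1 hs2
      linarith

theorem gx_step {d : ℕ} {E : Exchange d} {R : Rows} {σ : ℕ → List ℕ} {lam : ℕ → ℝ} {P S : ℕ → ℕ}
    (g : GX E R σ lam P S) (c : Bool) (hlt : lam (los c R) < lam (win c R)) :
    GX E (step c R) (stepW c R σ) (stepL c R lam) (stepP c R P S) (stepS c R P S) := by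
  cases c with
  | true => exact gx_true g hlt
  | false => exact gx_false g hlt

theorem gx_init {d : ℕ} (E : Exchange d) (hd : 2 ≤ d) (hi : E.Irreducible) :
    GX E (rowsE E) (fun x => [x]) (lamE E) (fun _ => 0) (fun _ => 0) := by
  obtain ⟨h1, h2⟩ := geo_init E hd hi
  refine ⟨h1, fun x _ => rfl, fun z => ?_, fun z => ?_, ?_, ⟨0, fun z h0 h3 => ⟨0, le_refl _, h0, ?_⟩⟩⟩
  · exact ps_top E z
  · exact (ps_bot E z).symm
  · intro x _ z _ s hs1 hs2
    simp only [List.length_singleton] at hs2
    omega
  · rw [h2]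
    exact h3

end Pool.Agent.SYM
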