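import Pool.Agent.SYM.Tab

/-!
# SYM/Grow: growth of the zippers along the periodic path
-/

set_option autoImplicit false

namespace Pool.Agent.SYM

open Pool.Agent.RTX
open Pool.Agent.Helper44.IET

/-- `β` -/
noncomputable def be : ℝ := (Real.sqrt 13 + 3) / 2

/-- `α` -/
noncomputable def aa : ℝ := (Real.sqrt 13 - 3) / 2

theorem s13 : Real.sqrt 13 ^ 2 = 13 := Real.sq_sqrt (by norm_num)

theorem s13l : (3.6055512 : ℝ) ≤ Real.sqrt 13 := Real.le_sqrt_of_sq_le (by norm_num)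

theorem s13u : Real.sqrt 13 ≤ 3.6055514 := by
  rw [Real.sqrt_le_left (by norm_num)]; norm_num

theorem be_sq : be ^ 2 = 3 * be + 1 := by
  unfold be; nlinarith [s13]

theorem aa_sq : aa ^ 2 = 1 - 3 * aa := by
  unfold aa; nlinarith [s13]

theorem be_l : (33027756 : ℝ) / 10000000 ≤ be := by unfold be; linarith [s13l]

theorem be_u : be ≤ (33027757 : ℝ) / 10000000 := by unfold be; linarith [s13u]

theorem aa_l : (3027756 : ℝ) / 10000000 ≤ aa := by unfold aa; linarith [s13l]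

theorem aa_u : aa ≤ (3027757 : ℝ) / 10000000 := by unfold aa; linarith [s13u]

/-- value of a pair -/
noncomputable def vb (q : ℤ × ℤ) : ℝ := q.1 + q.2 * be

/-- value of a pair -/
noncomputable def va (q : ℤ × ℤ) : ℝ := q.1 + q.2 * aa

theorem vb_add (p q : ℤ × ℤ) : vb (p + q) = vb p + vb q := by
  simp only [vb, Prod.fst_add, Prod.snd_add]; push_cast; ring

theorem vb_sub (p q : ℤ × ℤ) : vb (p - q) = vb p - vb q := by
  simp only [vb, Prod.fst_sub, Prod.snd_sub]; push_cast; ring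

theorem va_add (p q : ℤ × ℤ) : va (p + q) = va p + va q := by
  simp only [va, Prod.fst_add, Prod.snd_add]; push_cast; ring

theorem va_sub (p q : ℤ × ℤ) : va (p - q) = va p - va q := by
  simp only [va, Prod.fst_sub, Prod.snd_sub]; push_cast; ring

theorem vb_mul (n : ℤ × ℤ) (q : ℤ × ℤ) (h : n.1 = n.2) : vb (n * q) = n.1 * vb q := by
  simp only [vb, Prod.fst_mul, Prod.snd_mul, ← h]; push_cast; ring

theorem va_mul (n : ℤ × ℤ) (q : ℤ × ℤ) (h : n.1 = n.2) : va (n * q) = n.1 * va q := by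
  simp only [va, Prod.fst_mul, Prod.snd_mul, ← h]; push_cast; ring

theorem vb_nn {q : ℤ × ℤ} (h : nb q = true) : 0 ≤ vb q := by
  unfold nb at h
  simp only [Bool.or_eq_true, Bool.and_eq_true, decide_eq_true_eq] at h
  unfold vb
  rcases h with ⟨h1, h2⟩ | ⟨h1, h2⟩
  · have h3 : (0 : ℝ) ≤ q.2 := by exact_mod_cast h1
    have h4 : (0 : ℝ) ≤ 10000000 * q.1 + 33027756 * q.2 := by exact_mod_cast h2
    nlinarith [mul_le_mul_of_nonneg_left be_l h3]
  · have h3 : (q.2 : ℝ) ≤ 0 := by exact_mod_cast h1.le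
    have h4 : (0 : ℝ) ≤ 10000000 * q.1 + 33027757 * q.2 := by exact_mod_cast h2
    nlinarith [mul_le_mul_of_nonpos_left be_u h3]

theorem va_nn {q : ℤ × ℤ} (h : na q = true) : 0 ≤ va q := by
  unfold na at h
  simp only [Bool.or_eq_true, Bool.and_eq_true, decide_eq_true_eq] at h
  unfold va
  rcases h with ⟨h1, h2⟩ | ⟨h1, h2⟩
  · have h3 : (0 : ℝ) ≤ q.2 := by exact_mod_cast h1
    have h4 : (0 : ℝ) ≤ 10000000 * q.1 + 3027756 * q.2 := by exact_mod_cast h2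
    nlinarith [mul_le_mul_of_nonneg_left aa_l h3]
  · have h3 : (q.2 : ℝ) ≤ 0 := by exact_mod_cast h1.le
    have h4 : (0 : ℝ) ≤ 10000000 * q.1 + 3027757 * q.2 := by exact_mod_cast h2
    nlinarith [mul_le_mul_of_nonpos_left aa_u h3]

/-- the recursion over the reals -/
def Rec (p s : ℕ → ℕ → ℝ) (u : ℝ) : Prop :=
  ∀ φ < 16, ∀ x < 5,
    (p (φ + 1) x = if cl φ = true ∧ x = (tR φ).a then
      p φ (tR φ).a + (p φ (tR φ).b + s φ (tR φ).b + u) else p φ x) ∧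
    (s (φ + 1) x = if cl φ = false ∧ x = (tR φ).b then
      s φ (tR φ).b + (p φ (tR φ).a + s φ (tR φ).a + u) else s φ x)

theorem rec_z {tp ts : ℕ → List (ℤ × ℤ)} {u : ℤ × ℤ} (h : RecZ tp ts u) :
    Rec (fun φ x => vb (ea (tp φ) x)) (fun φ x => vb (ea (ts φ) x)) (vb u) := by
  intro φ hφ x hx
  obtain ⟨h1, h2⟩ := h φ hφ x hx
  refine ⟨?_, ?_⟩
  · simp only [h1]
    split_ifs
    · simp only [vb_add]
    · rfl
  · simp only [h2]
    split_ifs
    · simp only [vb_add]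
    · rfl

theorem rec_lin {p1 s1 p2 s2 p3 s3 : ℕ → ℕ → ℝ} {u1 u2 u3 : ℝ} (h1 : Rec p1 s1 u1) (h2 : Rec p2 s2 u2)
    (h3 : Rec p3 s3 u3) (A B : ℝ) :
    Rec (fun φ x => A * p1 φ x + B * p2 φ x + p3 φ x) (fun φ x => A * s1 φ x + B * s2 φ x + s3 φ x)
      (A * u1 + B * u2 + u3) := by
  intro φ hφ x hx
  obtain ⟨a1, b1⟩ := h1 φ hφ x hx
  obtain ⟨a2, b2⟩ := h2 φ hφ x hx
  obtain ⟨a3, b3⟩ := h3 φ hφ x hx
  refine ⟨?_, ?_⟩
  · simp only [a1, a2, a3]
    split_ifs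
    · ring
    · rfl
  · simp only [b1, b2, b3]
    split_ifs
    · ring
    · rfl

theorem rec_mono {p s p' s' : ℕ → ℕ → ℝ} {u : ℝ} (h : Rec p s u) (h' : Rec p' s' u)
    (h0 : ∀ x < 5, p 0 x ≤ p' 0 x ∧ s 0 x ≤ s' 0 x) :
    ∀ φ ≤ 16, ∀ x < 5, p φ x ≤ p' φ x ∧ s φ x ≤ s' φ x := by
  intro φ
  induction φ with
  | zero => intro _; exact h0
  | succ φ ih =>
    intro hφ x hx
    obtain ⟨ha, hb⟩ := abL φ (by omega)
    have ih' := ih (by omega)
    obtain ⟨a1, b1⟩ := h φ (by omega) x hx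
    obtain ⟨a2, b2⟩ := h' φ (by omega) x hx
    have i1 := ih' _ ha
    have i2 := ih' _ hb
    have i3 := ih' x hx
    rw [a1, a2, b1, b2]
    refine ⟨?_, ?_⟩
    · split_ifs
      · linarith [i1.1, i2.1, i2.2]
      · exact i3.1
    · split_ifs
      · linarith [i1.1, i1.2, i2.2]
      · exact i3.2

/-- the rows at all levels -/
def sR : ℕ → Rows
  | 0 => rows0 5 [4, 3, 2, 1, 0]
  | t + 1 => step (cc t) (sR t)

/-- the zippers at all levels -/
def sPS : ℕ → (ℕ → ℕ) × (ℕ → ℕ)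
  | 0 => (fun _ => 0, fun _ => 0)
  | t + 1 => (stepP (cc t) (sR t) (sPS t).1 (sPS t).2, stepS (cc t) (sR t) (sPS t).1 (sPS t).2)

theorem cc_per (n : ℕ) {φ : ℕ} (hφ : φ < 16) : cc (16 * (n + 1) + φ) = cl φ := by
  unfold cc cl
  have h1 : Nat.blt (16 * (n + 1) + φ) 16 = false := by
    rw [Bool.eq_false_iff, ne_eq, Nat.blt_eq]; omega
  rw [h1, cond_false, Nat.mul_add_mod, Nat.mod_eq_of_lt hφ]

theorem rows_ext {R R' : Rows} (h1 : R.top = R'.top) (h2 : R.bot = R'.bot) : R = R' := by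
  cases R; cases R'; simp only at h1 h2; rw [h1, h2]

theorem sR_pre : ∀ t ≤ 16, sR t = pR t := by
  intro t
  induction t with
  | zero => intro _; rfl
  | succ t ih =>
    intro ht
    have h1 := preS t (by omega)
    show step (cc t) (sR t) = _
    rw [ih (by omega)]
    exact rows_ext h1.1 h1.2

theorem sR_per (n : ℕ) : ∀ φ ≤ 16, sR (16 * (n + 1) + φ) = tR φ := by
  have key : ∀ n, sR (16 * (n + 1)) = tR 0 → ∀ φ ≤ 16, sR (16 * (n + 1) + φ) = tR φ := by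
    intro n hn φ
    induction φ with
    | zero => intro _; exact hn
    | succ φ ih =>
      intro hφ
      have h1 := rowS φ (by omega)
      show step (cc (16 * (n + 1) + φ)) (sR (16 * (n + 1) + φ)) = _
      rw [ih (by omega), cc_per n (by omega)]
      exact rows_ext h1.1 h1.2
  refine key n ?_
  induction n with
  | zero =>
    rw [show 16 * (0 + 1) = 16 by norm_num, sR_pre 16 (le_refl _)]
    exact rows_ext pre16.1.1 pre16.1.2
  | succ n ih =>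
    have h1 := key n ih 16 (le_refl _)
    rw [show 16 * (n + 1 + 1) = 16 * (n + 1) + 16 by ring, h1]
    exact rows_ext rowC.1 rowC.2

theorem rec_ps (n : ℕ) :
    Rec (fun φ x => ((sPS (16 * (n + 1) + φ)).1 x : ℝ)) (fun φ x => ((sPS (16 * (n + 1) + φ)).2 x : ℝ)) 1 := by
  intro φ hφ x _
  have h1 : sPS (16 * (n + 1) + (φ + 1)) =
    (stepP (cc (16 * (n + 1) + φ)) (sR (16 * (n + 1) + φ)) (sPS (16 * (n + 1) + φ)).1 (sPS (16 * (n + 1) + φ)).2,
    stepS (cc (16 * (n + 1) + φ)) (sR (16 * (n + 1) + φ)) (sPS (16 * (n + 1) + φ)).1 (sPS (16 * (n + 1) + φ)).2) := rfl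
  simp only [h1, sR_per n φ hφ.le, cc_per n hφ]
  refine ⟨?_, ?_⟩
  · unfold stepP
    split_ifs
    · push_cast; ring
    · rfl
  · unfold stepS
    split_ifs
    · push_cast; ring
    · rfl

theorem lv_pre {t : ℕ} (h : t < 16) : lvR t = pR t ∧ lvL t = pL t := by
  unfold lvR lvL
  have h1 : Nat.blt t 16 = true := by rw [Nat.blt_eq]; exact h
  rw [h1]
  exact ⟨rfl, rfl⟩

theorem lv_per (n : ℕ) {φ : ℕ} (h : φ < 16) : lvR (16 * (n + 1) + φ) = tR φ ∧ lvL (16 * (n + 1) + φ) = tL φ := by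
  unfold lvR lvL
  have h1 : Nat.blt (16 * (n + 1) + φ) 16 = false := by
    rw [Bool.eq_false_iff, ne_eq, Nat.blt_eq]; omega
  rw [h1, cond_false, cond_false, Nat.mul_add_mod, Nat.mod_eq_of_lt h]
  exact ⟨rfl, rfl⟩

theorem mod_dec (t : ℕ) (h : 16 ≤ t) : ∃ n φ, φ < 16 ∧ t = 16 * (n + 1) + φ :=
  ⟨t / 16 - 1, t % 16, Nat.mod_lt _ (by norm_num), by omega⟩

theorem sR_lv (t : ℕ) : sR t = lvR t := by
  rcases Nat.lt_or_ge t 16 with h | h
  · rw [sR_pre t h.le, (lv_pre h).1]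
  · obtain ⟨n, φ, hφ, rfl⟩ := mod_dec t h
    rw [sR_per n φ hφ.le, (lv_per n hφ).1]

theorem getD_set (l : List ℕ) (i j v : ℕ) (h : i < l.length) :
    (l.set i v).getD j 0 = if j = i then v else l.getD j 0 := by
  rw [List.getD_eq_getElem?_getD, List.getD_eq_getElem?_getD, List.getElem?_set]
  by_cases h1 : j = i
  · subst h1
    rw [if_pos rfl, if_pos h, if_pos rfl]
    rfl
  · rw [if_neg (fun h2 => h1 h2.symm), if_neg h1]

theorem walk_get : ∀ (L : List (List ℕ × List ℕ)) (t : ℕ), walk t L = true → ∀ j (h : j + 1 < L.length),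
    (L[j].1.length = 5 ∧ L[j].2.length = 5 ∧ stN (cc (t + j)) (lvR (t + j)) L[j] = L[j + 1]) ∧
      lvN (lvR (t + j)) (lvL (t + j)) L[j] = true := by
  intro L
  induction L with
  | nil => intro t _ j h; simp at h
  | cons x L ih =>
    intro t ht j h
    cases L with
    | nil => simp at h
    | cons y L =>
      simp only [walk, Bool.and_eq_true, decide_eq_true_eq] at ht
      obtain ⟨h1, h2, h3⟩ := ht
      cases j with
      | zero => exact ⟨h1, h2⟩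
      | succ j =>
        have h4 := ih (t + 1) h3 j (by simpa using h)
        rw [show t + (j + 1) = t + 1 + j by ring]
        exact h4

theorem ab5 (t : ℕ) : (lvR t).a < 5 ∧ (lvR t).b < 5 := by
  rcases Nat.lt_or_ge t 16 with h | h
  · rw [(lv_pre h).1]; exact preA t h
  · obtain ⟨n, φ, hφ, rfl⟩ := mod_dec t h
    rw [(lv_per n hφ).1]; exact abL φ hφ

theorem sPS_tab : ∀ t (h : t < tabN.length), ∀ x < 5,
    (sPS t).1 x = (tabN[t]).1.getD x 0 ∧ (sPS t).2 x = (tabN[t]).2.getD x 0 := by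
  intro t
  induction t with
  | zero =>
    intro h x hx
    have h1 : tabN[0] = ([0, 0, 0, 0, 0], [0, 0, 0, 0, 0]) := by
      have := tabN0.2.1
      rw [List.getElem?_eq_getElem h] at this
      exact Option.some.inj this
    rw [h1]
    show 0 = _ ∧ 0 = _
    interval_cases x <;> simp
  | succ t ih =>
    intro h x hx
    obtain ⟨⟨h1, h2, h3⟩, -⟩ := walk_get tabN 0 walk_ok t h
    rw [Nat.zero_add] at h3
    rw [← h3]
    have ih' := ih (by omega)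
    obtain ⟨ha, hb⟩ := ab5 t
    show (stepP (cc t) (sR t) (sPS t).1 (sPS t).2 x = _) ∧ stepS (cc t) (sR t) (sPS t).1 (sPS t).2 x = _
    rw [sR_lv t]
    unfold stN stepP stepS
    cases hc : cc t with
    | true =>
      simp only [cond_true, true_and]
      rw [getD_set _ _ _ _ (by rw [h1]; exact ha), (ih' _ ha).1, (ih' _ hb).1, (ih' _ hb).2, (ih' x hx).1, (ih' x hx).2]
      exact ⟨rfl, if_neg (by simp)⟩
    | false =>
      simp only [cond_false, true_and]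
      rw [getD_set _ _ _ _ (by rw [h2]; exact hb), (ih' _ ha).1, (ih' _ ha).2, (ih' _ hb).2, (ih' x hx).1, (ih' x hx).2]
      exact ⟨if_neg (by simp), rfl⟩

/-- the eigenvector -/
noncomputable def eP (φ x : ℕ) : ℝ := vb (ea (tEP φ) x)

/-- the eigenvector -/
noncomputable def eS (φ x : ℕ) : ℝ := vb (ea (tES φ) x)

theorem vb_mb (q : ℤ × ℤ) : vb (mb q) = (3 * be + 1) * vb q := by
  unfold vb mb
  push_cast
  have := be_sq
  linear_combination (-(3 : ℝ) * q.2) * this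

theorem vb10 : vb (1, 0) = 1 := by simp [vb]

theorem vb00 : vb (0, 0) = 0 := by simp [vb]

theorem vb_n (n : ℤ) : vb (n, 0) = n := by simp [vb]

theorem recE' : Rec eP eS 0 := by
  have := rec_z recE
  rw [vb00] at this
  exact this

theorem recI' : Rec (fun φ x => vb (ea (tIP φ) x)) (fun φ x => vb (ea (tIS φ) x)) 0 := by
  have := rec_z recI
  rw [vb00] at this
  exact this

theorem recK' : Rec (fun φ x => vb (ea (tKP φ) x)) (fun φ x => vb (ea (tKS φ) x)) 1 := by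
  have := rec_z recK
  rw [vb10] at this
  exact this

theorem nonR {φ x : ℕ} (hφ : φ ≤ 16) (hx : x < 5) :
    (0 ≤ eP φ x ∧ 0 ≤ eS φ x) ∧ (eP φ x ≤ 1000 ∧ eS φ x ≤ 1000) ∧
    (0 ≤ vb (ea (tKP φ) x) ∧ 0 ≤ vb (ea (tKS φ) x)) ∧
    (vb (ea (tKP φ) x) ≤ 1000 ∧ vb (ea (tKS φ) x) ≤ 1000) := by
  obtain ⟨⟨h1, h2⟩, -, ⟨h3, h4⟩, ⟨h5, h6⟩, ⟨h7, h8⟩⟩ := nonN φ (by omega) x hx
  have k5 := vb_nn h5
  have k6 := vb_nn h6
  have k7 := vb_nn h7
  have k8 := vb_nn h8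
  rw [vb_sub, vb_n] at k5 k6 k7 k8
  push_cast at k5 k6 k7 k8
  exact ⟨⟨vb_nn h1, vb_nn h2⟩, ⟨by unfold eP; linarith, by unfold eS; linarith⟩, ⟨vb_nn h3, vb_nn h4⟩,
    ⟨by linarith, by linarith⟩⟩

theorem cmpR {x : ℕ} (hx : x < 5) :
    (eP 0 x ≤ 8 * vb (ea (tIP 16) x) ∧ eS 0 x ≤ 8 * vb (ea (tIS 16) x)) ∧
    (vb (ea (tKP 16) x) ≤ 2 * eP 0 x ∧ vb (ea (tKS 16) x) ≤ 2 * eS 0 x) ∧
    (eP 0 x ≤ vb (ea (tKP 16) x) ∧ eS 0 x ≤ vb (ea (tKS 16) x)) := by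
  obtain ⟨⟨h1, h2⟩, ⟨h3, h4⟩, ⟨h5, h6⟩⟩ := cmp x hx
  have k1 := vb_nn h1
  have k2 := vb_nn h2
  have k3 := vb_nn h3
  have k4 := vb_nn h4
  have k5 := vb_nn h5
  have k6 := vb_nn h6
  rw [vb_sub, vb_mul _ _ rfl] at k1 k2 k3 k4
  rw [vb_sub] at k5 k6
  have e8 : ((8 : ℤ × ℤ).1 : ℝ) = 8 := by norm_num
  have e2 : ((2 : ℤ × ℤ).1 : ℝ) = 2 := by norm_num
  rw [e8] at k1 k2
  rw [e2] at k3 k4
  unfold eP eS
  exact ⟨⟨by linarith, by linarith⟩, ⟨by linarith, by linarith⟩, ⟨by linarith, by linarith⟩⟩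

theorem eigR {x : ℕ} (hx : x < 5) : eP 16 x = (3 * be + 1) * eP 0 x ∧ eS 16 x = (3 * be + 1) * eS 0 x := by
  obtain ⟨h1, h2⟩ := eigC x hx
  unfold eP eS
  rw [h1, h2, vb_mb, vb_mb]
  exact ⟨rfl, rfl⟩

theorem e0R : eS 0 0 = 6 := by
  unfold eS
  rw [e0, vb_n]
  norm_num

/-- bounds for the zippers by multiples of the eigenvector -/
def Sw (t : ℕ) (A B : ℝ) : Prop :=
  ∀ x < 5, (A * eP 0 x ≤ (sPS t).1 x ∧ ((sPS t).1 x : ℝ) ≤ B * eP 0 x) ∧
    (A * eS 0 x ≤ (sPS t).2 x ∧ ((sPS t).2 x : ℝ) ≤ B * eS 0 x)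

theorem gstep {n : ℕ} {A B : ℝ} (hA0 : 0 ≤ A) (hAB : A ≤ B) (hx : Sw (16 * (n + 1)) A B) :
    ∃ A' B' : ℝ, (3 * be + 1) * A ≤ A' ∧ A' ≤ B' ∧ B' - A' = (3 * be + 1 / 4) * (B - A) + 2 ∧
      Sw (16 * (n + 1 + 1)) A' B' := by
  have hbl := be_l
  have hB0 : 0 ≤ B := hA0.trans hAB
  set w : ℝ := (((sPS (16 * (n + 1))).2 0 : ℕ) : ℝ) with hw
  have hw1 := (hx 0 (by norm_num)).2
  rw [e0R] at hw1
  have hlo := rec_mono (rec_lin recE' recI' recK' A (w - 6 * A)) (by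
    have := rec_ps n
    rw [show (1 : ℝ) = A * 0 + (w - 6 * A) * 0 + 1 by ring] at this
    exact this) (fun x hx' => by
      obtain ⟨i1, i2, i3, i4⟩ := ini x hx'
      have h5 := hx x hx'
      simp only [i1, i2, i3, i4, vb00, Nat.add_zero]
      refine ⟨by linarith [h5.1.1], ?_⟩
      by_cases h0 : x = 0
      · subst h0
        rw [if_pos rfl, vb10, e0R]
        linarith
      · rw [if_neg h0, vb00]
        linarith [h5.2.1]) 16 (le_refl _)
  have hhi := rec_mono (by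
    have := rec_ps n
    rw [show (1 : ℝ) = B * 0 + (w - 6 * B) * 0 + 1 by ring] at this
    exact this) (rec_lin recE' recI' recK' B (w - 6 * B)) (fun x hx' => by
      obtain ⟨i1, i2, i3, i4⟩ := ini x hx'
      have h5 := hx x hx'
      simp only [i1, i2, i3, i4, vb00, Nat.add_zero]
      refine ⟨by linarith [h5.1.2], ?_⟩
      by_cases h0 : x = 0
      · subst h0
        rw [if_pos rfl, vb10, e0R]
        linarith
      · rw [if_neg h0, vb00]
        linarith [h5.2.2]) 16 (le_refl _)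
  refine ⟨(3 * be + 1) * A + (w - 6 * A) / 8, (3 * be + 1) * B - (6 * B - w) / 8 + 2, ?_, ?_, ?_, fun x hx' => ?_⟩
  · linarith [hw1.1]
  · nlinarith [mul_nonneg (by linarith : (0 : ℝ) ≤ 3 * be + 1 / 4) (sub_nonneg.2 hAB)]
  · ring
  · have e1 : 16 * (n + 1) + 16 = 16 * (n + 1 + 1) := by ring
    obtain ⟨l1, l2⟩ := hlo x hx'
    obtain ⟨u1, u2⟩ := hhi x hx'
    simp only [e1] at l1 l2 u1 u2
    obtain ⟨g1, g2⟩ := eigR hx'
    obtain ⟨⟨c1, c2⟩, ⟨c3, c4⟩, -⟩ := cmpR hx'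
    obtain ⟨-, -, ⟨n1, n2⟩, -⟩ := nonR (le_refl 16) hx'
    rw [g1] at l1 u1
    rw [g2] at l2 u2
    have hwA : 0 ≤ w - 6 * A := by linarith [hw1.1]
    have hwB : 0 ≤ 6 * B - w := by linarith [hw1.2]
    have m1 := mul_le_mul_of_nonneg_left c1 hwA
    have m2 := mul_le_mul_of_nonneg_left c2 hwA
    have m3 := mul_le_mul_of_nonneg_left c1 hwB
    have m4 := mul_le_mul_of_nonneg_left c2 hwB
    refine ⟨⟨?_, ?_⟩, ⟨?_, ?_⟩⟩
    · nlinarith
    · nlinarith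
    · nlinarith
    · nlinarith

theorem tab_at {t : ℕ} {v : List ℕ × List ℕ} (h : tabN[t]? = some v) {x : ℕ} (hx : x < 5) :
    (sPS t).1 x = v.1.getD x 0 ∧ (sPS t).2 x = v.2.getD x 0 := by
  obtain ⟨h1, h2⟩ := List.getElem?_eq_some_iff.1 h
  have h3 := sPS_tab t h1 x hx
  rw [h2] at h3
  exact h3

theorem grow1 (m : ℕ) : ∃ A B : ℝ, (3 * be + 1) ^ m ≤ A ∧ A ≤ B ∧ B - A ≤ 2 * (3 * be + 1 / 4) ^ (m + 1) - 1 ∧
    Sw (16 * (m + 1)) A B := by
  have hbl := be_l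
  induction m with
  | zero =>
    refine ⟨1, 2, by norm_num, by norm_num, by norm_num; linarith, fun x hx => ?_⟩
    obtain ⟨t1, t2⟩ := tab_at tabN0.2.2.1 hx
    obtain ⟨⟨c1, c2⟩, ⟨c3, c4⟩⟩ := s16 x hx
    have k1 := vb_nn c1
    have k2 := vb_nn c2
    have k3 := vb_nn c3
    have k4 := vb_nn c4
    rw [vb_sub, vb_n] at k1 k2
    rw [vb_sub, vb_n, vb_mul _ _ rfl] at k3 k4
    have e2 : ((2 : ℤ × ℤ).1 : ℝ) = 2 := by norm_num
    rw [e2] at k3 k4
    rw [show 16 * (0 + 1) = 16 by norm_num, t1, t2]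
    unfold s16P at k1 k3
    unfold s16S at k2 k4
    push_cast at k1 k2 k3 k4
    unfold eP eS
    exact ⟨⟨by linarith, by linarith⟩, ⟨by linarith, by linarith⟩⟩
  | succ m ih =>
    obtain ⟨A, B, hA, hAB, hD, hx⟩ := ih
    have hA0 : 0 ≤ A := le_trans (by positivity) hA
    obtain ⟨A', B', h1, h2, h3, h4⟩ := gstep hA0 hAB hx
    refine ⟨A', B', ?_, h2, ?_, h4⟩
    · have h6 : (3 * be + 1) ^ (m + 1) ≤ (3 * be + 1) * A := by
        rw [pow_succ']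
        exact mul_le_mul_of_nonneg_left hA (by linarith)
      linarith
    · have h6 : (3 * be + 1 / 4) * (B - A) ≤ (3 * be + 1 / 4) * (2 * (3 * be + 1 / 4) ^ (m + 1) - 1) :=
        mul_le_mul_of_nonneg_left hD (by linarith)
      have h7 : (3 * be + 1 / 4) * (2 * (3 * be + 1 / 4) ^ (m + 1) - 1) =
          2 * (3 * be + 1 / 4) ^ (m + 1 + 1) - (3 * be + 1 / 4) := by ring
      linarith

theorem growB (m : ℕ) : ∃ A B : ℝ, 26042300 ≤ A ∧ A ≤ B ∧ B - A ≤ A / 20000 ∧ Sw (16 * (m + 7 + 1)) A B := by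
  have hbl := be_l
  induction m with
  | zero =>
    refine ⟨26042300, 26042390, by norm_num, by norm_num, by norm_num, fun x hx => ?_⟩
    obtain ⟨t1, t2⟩ := tab_at tabN0.2.2.2 hx
    obtain ⟨⟨c1, c2⟩, ⟨c3, c4⟩⟩ := s128 x hx
    have k1 := vb_nn c1
    have k2 := vb_nn c2
    have k3 := vb_nn c3
    have k4 := vb_nn c4
    rw [vb_sub, vb_n, vb_mul _ _ rfl] at k1 k2 k3 k4
    have e1 : ((26042300 : ℤ × ℤ).1 : ℝ) = 26042300 := by norm_num
    have e2 : ((26042390 : ℤ × ℤ).1 : ℝ) = 26042390 := by norm_num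
    rw [e1] at k1 k2
    rw [e2] at k3 k4
    rw [show 16 * (0 + 7 + 1) = 128 by norm_num, t1, t2]
    unfold s128P at k1 k3
    unfold s128S at k2 k4
    push_cast at k1 k2 k3 k4
    unfold eP eS
    exact ⟨⟨by linarith, by linarith⟩, ⟨by linarith, by linarith⟩⟩
  | succ m ih =>
    obtain ⟨A, B, hA, hAB, hD, hx⟩ := ih
    have hA0 : 0 ≤ A := by linarith
    obtain ⟨A', B', h1, h2, h3, h4⟩ := gstep hA0 hAB hx
    refine ⟨A', B', by nlinarith, h2, ?_, ?_⟩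
    · have h5 : (3 * be + 1 / 4) * (B - A) ≤ (3 * be + 1 / 4) * (A / 20000) :=
        mul_le_mul_of_nonneg_left hD (by linarith)
      rw [h3]
      nlinarith
    · rw [show m + 1 + 7 + 1 = m + 7 + 1 + 1 by ring]
      exact h4

/-- the bounds at the other phases -/
theorem phase {n : ℕ} {A B : ℝ} (hx : Sw (16 * (n + 1)) A B) :
    ∀ φ ≤ 16, ∀ x < 5,
    (A * eP φ x ≤ (sPS (16 * (n + 1) + φ)).1 x ∧ ((sPS (16 * (n + 1) + φ)).1 x : ℝ) ≤ B * eP φ x + 1000) ∧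
      (A * eS φ x ≤ (sPS (16 * (n + 1) + φ)).2 x ∧ ((sPS (16 * (n + 1) + φ)).2 x : ℝ) ≤ B * eS φ x + 1000) := by
  intro φ hφ x hx'
  have hlo := rec_mono (rec_lin recE' recI' recK' A 0) (by
    have := rec_ps n
    rw [show (1 : ℝ) = A * 0 + 0 * 0 + 1 by ring] at this
    exact this) (fun x hx' => by
      obtain ⟨i1, i2, i3, i4⟩ := ini x hx'
      have h5 := hx x hx'
      simp only [i3, i4, vb00, Nat.add_zero]
      exact ⟨by linarith [h5.1.1], by linarith [h5.2.1]⟩) φ hφ x hx'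
  have hhi := rec_mono (by
    have := rec_ps n
    rw [show (1 : ℝ) = B * 0 + 0 * 0 + 1 by ring] at this
    exact this) (rec_lin recE' recI' recK' B 0) (fun x hx' => by
      obtain ⟨i1, i2, i3, i4⟩ := ini x hx'
      have h5 := hx x hx'
      simp only [i3, i4, vb00, Nat.add_zero]
      exact ⟨by linarith [h5.1.2], by linarith [h5.2.2]⟩) φ hφ x hx'
  try simp only at hlo hhi
  obtain ⟨-, -, ⟨n1, n2⟩, ⟨n3, n4⟩⟩ := nonR hφ hx'
  exact ⟨⟨by linarith [hlo.1], by linarith [hhi.1]⟩, ⟨by linarith [hlo.2], by linarith [hhi.2]⟩⟩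

/-- the zippers are asymptotically proportional to the eigenvector -/
theorem growA {ε : ℝ} (hε : 0 < ε) : ∃ C : ℝ, 1000 ≤ C ∧ ∀ n, ∃ A : ℝ, 0 ≤ A ∧ ∀ φ ≤ 16, ∀ x < 5,
    (A * eP φ x ≤ (sPS (16 * (n + 1) + φ)).1 x ∧ ((sPS (16 * (n + 1) + φ)).1 x : ℝ) ≤ (1 + ε) * (A * eP φ x) + C) ∧
      (A * eS φ x ≤ (sPS (16 * (n + 1) + φ)).2 x ∧ ((sPS (16 * (n + 1) + φ)).2 x : ℝ) ≤ (1 + ε) * (A * eS φ x) + C) := by
  have hbl := be_l
  have hρ : (0 : ℝ) < 3 * be + 1 / 4 := by linarith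
  have hlm : (0 : ℝ) < 3 * be + 1 := by linarith
  have hr1 : (3 * be + 1 / 4) / (3 * be + 1) < 1 := by
    rw [div_lt_one hlm]; linarith
  have hr0 : 0 ≤ (3 * be + 1 / 4) / (3 * be + 1) := by positivity
  obtain ⟨m0, hm0⟩ := exists_pow_lt_of_lt_one (show (0 : ℝ) < ε / (2 * (3 * be + 1 / 4)) by positivity) hr1
  have hC0 : ∀ m : ℕ, 2 * (3 * be + 1 / 4) ^ (m + 1) ≤ ε * (3 * be + 1) ^ m + 2 * (3 * be + 1 / 4) ^ (m0 + 1) := by
    intro m
    rcases le_total m m0 with h | h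
    · have h1 : (3 * be + 1 / 4) ^ (m + 1) ≤ (3 * be + 1 / 4) ^ (m0 + 1) :=
        pow_le_pow_right₀ (by linarith) (by omega)
      have h2 : 0 ≤ ε * (3 * be + 1) ^ m := by positivity
      linarith
    · have h1 : ((3 * be + 1 / 4) / (3 * be + 1)) ^ m ≤ ((3 * be + 1 / 4) / (3 * be + 1)) ^ m0 :=
        pow_le_pow_of_le_one hr0 hr1.le h
      have h2 : ((3 * be + 1 / 4) / (3 * be + 1)) ^ m ≤ ε / (2 * (3 * be + 1 / 4)) := h1.trans hm0.le
      rw [div_pow, div_le_div_iff₀ (by positivity) (by positivity)] at h2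
      have h3 : 2 * (3 * be + 1 / 4) ^ (m + 1) = (3 * be + 1 / 4) ^ m * (2 * (3 * be + 1 / 4)) := by ring
      have h4 : (0 : ℝ) ≤ 2 * (3 * be + 1 / 4) ^ (m0 + 1) := by positivity
      linarith
  set C0 : ℝ := 2 * (3 * be + 1 / 4) ^ (m0 + 1) with hC0d
  have hC0n : 0 ≤ C0 := by positivity
  refine ⟨C0 * 1000 + 1000, by linarith, fun m => ?_⟩
  obtain ⟨A, B, hA, hAB, hD, hx⟩ := grow1 m
  have hA0 : 0 ≤ A := le_trans (by positivity) hA
  refine ⟨A, hA0, fun φ hφ x hx' => ?_⟩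
  obtain ⟨⟨p1, p2⟩, ⟨p3, p4⟩⟩ := phase hx φ hφ x hx'
  obtain ⟨⟨e1, e2⟩, ⟨e3, e4⟩, -, -⟩ := nonR hφ hx'
  have h6 : B ≤ (1 + ε) * A + C0 := by
    have h7 := hC0 m
    have h8 : ε * (3 * be + 1) ^ m ≤ ε * A := mul_le_mul_of_nonneg_left hA hε.le
    linarith
  have h7 := mul_le_mul_of_nonneg_right h6 e1
  have h8 := mul_le_mul_of_nonneg_right h6 e2
  have h9 := mul_le_mul_of_nonneg_left e3 hC0n
  have h10 := mul_le_mul_of_nonneg_left e4 hC0n
  exact ⟨⟨p1, by linarith⟩, ⟨p3, by linarith⟩⟩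

end Pool.Agent.SYM
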