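import Pool.Agent.SYM.GX

/-!
# SYM/Hull: runs and the cuts of a level

A run of two orbits `l < u` which stay together for `N` steps moves rigidly.  At the moment `j` when the right end is minimal, and at the level
whose last interval (top row) and last image (bottom row) contain the right end, the left end is outside of both of them, and the length of the run is
at most `P z + S z'` for all cuts `z`, `z'` between the two ends.
-/

set_option autoImplicit false

namespace Pool.Agent.SYM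

open Pool.Agent.RTX
open Pool.Agent.Helper44.IET (Exchange)

variable {d : ℕ} {E : Exchange d}

/-- The orbits of `x` and `y` stay in the same intervals for `N` steps. -/
def Agr {d : ℕ} (E : Exchange d) (x y : ℝ) (N : ℕ) : Prop :=
  ∀ j < N, ∃ i : Fin d, E.T^[j] x ∈ E.interval i ∧ E.T^[j] y ∈ E.interval i

/-- The exchange is a bijection of `[0, 1)` (what is used of it). -/
structure Bij {d : ℕ} (E : Exchange d) : Prop where
  mem : ∀ z, 0 ≤ z → z < 1 → ∃ i : Fin d, z ∈ E.interval i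
  map : ∀ z, 0 ≤ z → z < 1 → 0 ≤ E.T z ∧ E.T z < 1
  il : ∀ i : Fin d, 0 ≤ E.imageLeft i ∧ E.imageLeft i < 1
  iv : ∀ i : Fin d, ∀ z ∈ E.interval i, 0 ≤ z ∧ z < 1

theorem bij_of {d : ℕ} (E : Exchange d) (hd : 2 ≤ d) (hi : E.Irreducible) : Bij E := by
  obtain ⟨h, ht⟩ := geo_init E hd hi
  have hb : tot (lamE E) (rowsE E).bot = 1 := by
    rw [← ht]; exact tot_perm _ (h.ri.bot.trans h.ri.top.symm)
  have hpt : ∀ w ∈ (rowsE E).top, 0 < lamE E w := fun w hw => h.pos w ((ri_mem_top h.ri w).1 hw)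
  have hpb : ∀ w ∈ (rowsE E).bot, 0 < lamE E w := fun w hw => h.pos w ((ri_mem_bot h.ri w).1 hw)
  have hl : ∀ i : Fin d, lamE E (i : ℕ) = E.len i := fun i => by unfold lamE; rw [dif_pos i.2]
  have hil : ∀ i : Fin d, 0 ≤ E.imageLeft i ∧ E.imageLeft i + E.len i ≤ 1 := by
    intro i
    have h1 := ps_bot E i
    have h2 := ps_nonneg hpb (i : ℕ)
    have h3 := ps_le_tot hpb ((ri_mem_bot h.ri _).2 i.2)
    rw [h1] at h2 h3
    rw [hb, hl] at h3
    exact ⟨h2, h3⟩
  have hle : ∀ i : Fin d, 0 ≤ E.left i ∧ E.left i + E.len i ≤ 1 := by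
    intro i
    have h1 := ps_top E i
    have h2 := ps_nonneg hpt (i : ℕ)
    have h3 := ps_le_tot hpt ((ri_mem_top h.ri _).2 i.2)
    rw [h1] at h2 h3
    rw [ht, hl] at h3
    exact ⟨h2, h3⟩
  have hmem : ∀ z, 0 ≤ z → z < 1 → ∃ i : Fin d, z ∈ E.interval i := by
    intro z h0 h1
    obtain ⟨x, hx, hx0, hx1⟩ := ps_find (ri_nd_top h.ri) hpt h0 (by rw [ht]; exact h1)
    have hxd := (ri_mem_top h.ri x).1 hx
    refine ⟨⟨x, hxd⟩, ?_⟩
    have h2 := ps_top E ⟨x, hxd⟩
    have h3 := hl ⟨x, hxd⟩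
    simp only at h2 h3
    rw [h2] at hx0 hx1
    rw [h3] at hx1
    exact ⟨hx0, hx1⟩
  refine ⟨hmem, fun z h0 h1 => ?_, fun i => ?_, fun i z hz => ?_⟩
  · obtain ⟨i, hz⟩ := hmem z h0 h1
    rw [E.T_of_mem hz]
    have h2 := hz.1
    have h3 := hz.2
    have h4 := hil i
    exact ⟨by linarith, by linarith⟩
  · have h4 := hil i
    have h5 := E.len_pos i
    exact ⟨h4.1, by linarith⟩
  · have h2 := hz.1
    have h3 := hz.2
    have h4 := hle i
    exact ⟨by linarith, by linarith⟩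

theorem map_it (hB : Bij E) {z : ℝ} (h0 : 0 ≤ z) (h1 : z < 1) (n : ℕ) : 0 ≤ E.T^[n] z ∧ E.T^[n] z < 1 := by
  induction n with
  | zero => exact ⟨h0, h1⟩
  | succ n ih =>
    rw [Function.iterate_succ_apply']
    exact hB.map _ ih.1 ih.2

theorem inj1 (hB : Bij E) {x y : ℝ} (hx0 : 0 ≤ x) (hx1 : x < 1) (hy0 : 0 ≤ y) (hy1 : y < 1) (h : E.T x = E.T y) :
    x = y := by
  obtain ⟨i, hi⟩ := hB.mem x hx0 hx1
  obtain ⟨j, hj⟩ := hB.mem y hy0 hy1
  exact (E.T_inj hi hj h).1

theorem inj_it (hB : Bij E) {x y : ℝ} (hx0 : 0 ≤ x) (hx1 : x < 1) (hy0 : 0 ≤ y) (hy1 : y < 1) (n : ℕ)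
    (h : E.T^[n] x = E.T^[n] y) : x = y := by
  induction n with
  | zero => exact h
  | succ n ih =>
    rw [Function.iterate_succ_apply', Function.iterate_succ_apply'] at h
    have h2 := map_it hB hx0 hx1 n
    have h3 := map_it hB hy0 hy1 n
    exact ih (inj1 hB h2.1 h2.2 h3.1 h3.2 h)

theorem rigid {l u w : ℝ} {N : ℕ} (hA : Agr E l u N) (h1 : l ≤ w) (h2 : w ≤ u) :
    ∀ s ≤ N, E.T^[s] w = E.T^[s] l + (w - l) ∧ E.T^[s] u = E.T^[s] l + (u - l) := by
  intro s
  induction s with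
  | zero => intro _; exact ⟨by simp, by simp⟩
  | succ s ih =>
    intro hs
    obtain ⟨h3, h4⟩ := ih (by omega)
    obtain ⟨i, hl, hu⟩ := hA s (by omega)
    have hw : E.T^[s] w ∈ E.interval i := by
      rw [h3]
      have a1 := hl.1
      have a2 := hu.2
      rw [h4] at a2
      exact ⟨by linarith, by linarith⟩
    rw [Function.iterate_succ_apply', Function.iterate_succ_apply', Function.iterate_succ_apply',
      E.T_of_mem hl, E.T_of_mem hu, E.T_of_mem hw, h3, h4]
    exact ⟨by ring, by ring⟩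

theorem agr_shift {x y : ℝ} {N m : ℕ} (hA : Agr E x y N) (hm : m ≤ N) : Agr E (E.T^[m] x) (E.T^[m] y) (N - m) := by
  intro j hj
  obtain ⟨i, h1, h2⟩ := hA (j + m) (by omega)
  rw [Function.iterate_add_apply] at h1 h2
  exact ⟨i, h1, h2⟩

theorem agr_symm {x y : ℝ} {N : ℕ} (hA : Agr E x y N) : Agr E y x N := fun j hj => by
  obtain ⟨i, h1, h2⟩ := hA j hj
  exact ⟨i, h2, h1⟩

/-- a cut between the ends bounds the rest of the run -/
theorem right_cut {l u : ℝ} {N P : ℕ} {w : ℝ} {z : Fin d} (hA : Agr E l u N) (h1 : l < w) (h2 : w ≤ u)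
    (hw : E.T^[P] w = E.left z) : N ≤ P := by
  by_contra hc
  push Not at hc
  obtain ⟨h3, h4⟩ := rigid hA h1.le h2 P hc.le
  obtain ⟨i, hl, hu⟩ := hA P hc
  rw [hw] at h3
  have a1 := hl.1
  have a2 := hu.2
  rw [h4] at a2
  rcases lt_or_ge i z with h5 | h5
  · have h6 := E.left_add_le h5
    linarith
  · rcases eq_or_lt_of_le h5 with h6 | h6
    · subst h6
      linarith
    · have h7 := E.left_add_le h6
      have h8 := E.len_pos z
      linarith

/-- a cut between the ends bounds the beginning of the run -/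
theorem left_cut (hB : Bij E) {l u : ℝ} {N S j : ℕ} {w : ℝ} {z : Fin d} (hl0 : 0 ≤ l) (hu1 : u < 1) (hlu : l < u)
    (hA : Agr E l u N) (hj : j ≤ N) (h1 : E.T^[j] l < w) (h2 : w ≤ E.T^[j] u)
    (hw : E.T^[S] (E.imageLeft z) = w) : j ≤ S := by
  by_contra hc
  push Not at hc
  obtain ⟨m, rfl⟩ : ∃ m, j = S + (m + 1) := ⟨j - S - 1, by omega⟩
  have hl1 : l < 1 := by linarith
  have hu0 : 0 ≤ u := by linarith
  have hA' := agr_shift hA (m := m + 1) (by omega)
  obtain ⟨-, hd1⟩ := rigid hA (le_refl l) hlu.le (m + 1) (by omega)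
  obtain ⟨i, hil, hiu⟩ := hA m (by omega)
  have e1 : E.T^[m + 1] l = E.T^[m] l + (E.imageLeft i - E.left i) := by
    rw [Function.iterate_succ_apply', E.T_of_mem hil]
  have e2 : E.T^[m + 1] u = E.T^[m] u + (E.imageLeft i - E.left i) := by
    rw [Function.iterate_succ_apply', E.T_of_mem hiu]
  rw [Function.iterate_add_apply] at h1 h2
  have hml := map_it hB hl0 hl1 (m + 1)
  have hmu := map_it hB hu0 hu1 (m + 1)
  obtain ⟨-, hd2⟩ := rigid hA' (le_refl _) (by linarith) S (by omega)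
  obtain ⟨h3, -⟩ := rigid hA' (w := E.T^[m + 1] l + (w - E.T^[S] (E.T^[m + 1] l))) (by linarith) (by linarith) S
    (by omega)
  have h4 : E.T^[S] (E.T^[m + 1] l + (w - E.T^[S] (E.T^[m + 1] l))) = E.T^[S] (E.imageLeft z) := by
    rw [h3, hw]; ring
  have hz := hB.il z
  have h5 := inj_it hB (by linarith) (by linarith) hz.1 hz.2 S h4
  have a1 := hil.1
  have a2 := hiu.2
  rcases lt_trichotomy (E.perm i) (E.perm z) with h6 | h6 | h6
  · have h7 := E.imageLeft_add_le h6
    linarith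
  · have h7 := E.perm.injective h6
    subst h7
    linarith
  · have h7 := E.imageLeft_add_le h6
    have h8 := E.len_pos z
    linarith

end Pool.Agent.SYM
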