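import Pool.Agent.SYM.Hull

/-!
# SYM/Hull2: the run at the level of its minimal right end
-/

set_option autoImplicit false

namespace Pool.Agent.SYM

open Pool.Agent.RTX
open Pool.Agent.Helper44.IET (Exchange)

variable {d : ℕ} {E : Exchange d} {R : Rows} {σ : ℕ → List ℕ} {lam : ℕ → ℝ} {P S : ℕ → ℕ}

theorem ps_disj {lam : ℕ → ℝ} {l : List ℕ} (hl : l.Nodup) (hp : ∀ z ∈ l, 0 < lam z) {x y : ℕ} (hx : x ∈ l)
    (hy : y ∈ l) {z : ℝ} (h1 : ps lam x l ≤ z) (h2 : z < ps lam x l + lam x) (h3 : ps lam y l ≤ z)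
    (h4 : z < ps lam y l + lam y) : x = y := by
  induction l generalizing z with
  | nil => simp at hx
  | cons w l ih =>
    have h5 := List.nodup_cons.1 hl
    have h6 : ∀ z ∈ l, 0 < lam z := fun z hz => hp z (List.mem_cons_of_mem _ hz)
    by_cases hwx : w = x
    · by_cases hwy : w = y
      · rw [← hwx, hwy]
      · exfalso
        have h7 := ps_nonneg h6 y
        have e1 : ps lam x (w :: l) = 0 := if_pos hwx
        have e2 : ps lam y (w :: l) = lam w + ps lam y l := if_neg hwy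
        rw [e1] at h2
        rw [e2] at h3
        rw [← hwx] at h2
        linarith
    · by_cases hwy : w = y
      · exfalso
        have h7 := ps_nonneg h6 x
        have e1 : ps lam y (w :: l) = 0 := if_pos hwy
        have e2 : ps lam x (w :: l) = lam w + ps lam x l := if_neg hwx
        rw [e1] at h4
        rw [e2] at h1
        rw [← hwy] at h4
        linarith
      · have e1 : ps lam y (w :: l) = lam w + ps lam y l := if_neg hwy
        have e2 : ps lam x (w :: l) = lam w + ps lam x l := if_neg hwx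
        rw [e2] at h1 h2
        rw [e1] at h3 h4
        have hx' : x ∈ l := by
          rcases List.mem_cons.1 hx with h8 | h8
          · exact absurd h8.symm hwx
          · exact h8
        have hy' : y ∈ l := by
          rcases List.mem_cons.1 hy with h8 | h8
          · exact absurd h8.symm hwy
          · exact h8
        exact ih h5.2 h6 hx' hy' (z := z - lam w) (by linarith) (by linarith) (by linarith) (by linarith)

/-- The run can not be extended to the left. -/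
def Lmax {d : ℕ} (E : Exchange d) (l u : ℝ) : Prop :=
  ∀ l' u' : ℝ, ∀ i : Fin d, l' ∈ E.interval i → u' ∈ E.interval i → E.T l' = l → E.T u' = u → False

/-- The run can not be extended to the right. -/
def Rmax {d : ℕ} (E : Exchange d) (l u : ℝ) (N : ℕ) : Prop :=
  ∀ i : Fin d, E.T^[N] l ∈ E.interval i → E.T^[N] u ∈ E.interval i → False

theorem hull_a (g : GX E R σ lam P S) {l u : ℝ} {N j : ℕ} (hlu : l < u) (hA : Agr E l u N) (hR : Rmax E l u N)
    (hj : j ≤ N) (hmin : ∀ i ≤ N, E.T^[j] u ≤ E.T^[i] u) (hr : E.T^[j] u < tot lam R.top) :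
    E.T^[j] l < ps lam R.a R.top := by
  have h := g.geo
  obtain ⟨had, hbd, hab⟩ := ri_ab h.ri
  by_contra hc
  push Not at hc
  have ea : ps lam R.a R.top = tot lam R.top - lam R.a := ps_lst (ri_nd_top h.ri) (ne_top h.ri)
  obtain ⟨-, hd1⟩ := rigid hA (le_refl l) hlu.le j hj
  have hJl : inJ R lam R.a (E.T^[j] l) := ⟨hc, by linarith⟩
  have hJu : inJ R lam R.a (E.T^[j] u) := ⟨by linarith, by linarith⟩
  by_cases hN : (σ R.a).length + j ≤ N
  · have h1 := hmin _ hN
    rw [Function.iterate_add_apply, h.ret _ had _ hJu] at h1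
    have hpb : ∀ w ∈ R.bot, 0 < lam w := fun w hw => h.pos w ((ri_mem_bot h.ri w).1 hw)
    have h4 : ps lam R.a R.bot + lam R.a ≤ tot lam R.bot - lam R.b :=
      ps_le_lst (ri_nd_bot h.ri) hpb ((ri_mem_bot h.ri _).2 had) hab
    have h5 : tot lam R.bot = tot lam R.top := tot_perm lam (h.ri.bot.trans h.ri.top.symm)
    have h6 := h.pos _ hbd
    linarith
  · obtain ⟨q, rfl⟩ : ∃ q, N = q + j := ⟨N - j, by omega⟩
    have hq : q < (σ R.a).length := by omega
    obtain ⟨hd, hm1⟩ := h.vis _ had _ hJl q hq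
    obtain ⟨_, hm2⟩ := h.vis _ had _ hJu q hq
    rw [← Function.iterate_add_apply] at hm1 hm2
    exact hR _ hm1 hm2

theorem hull_b (g : GX E R σ lam P S) (hB : Bij E) {l u : ℝ} {N j : ℕ} (hl0 : 0 ≤ l) (hu1 : u < 1) (hlu : l < u)
    (hA : Agr E l u N) (hL : Lmax E l u) (hj : j ≤ N) (hmin : ∀ i ≤ N, E.T^[j] u ≤ E.T^[i] u)
    (hr : E.T^[j] u < tot lam R.top) : E.T^[j] l < ps lam R.b R.bot := by
  have h := g.geo
  obtain ⟨had, hbd, hab⟩ := ri_ab h.ri
  by_contra hc
  push Not at hc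
  have h5 : tot lam R.bot = tot lam R.top := tot_perm lam (h.ri.bot.trans h.ri.top.symm)
  have eb : ps lam R.b R.bot = tot lam R.bot - lam R.b := ps_lst (ri_nd_bot h.ri) (ne_bot h.ri)
  obtain ⟨-, hd1⟩ := rigid hA (le_refl l) hlu.le j hj
  have hJl : inJ R lam R.b (E.T^[j] l - ps lam R.b R.bot + ps lam R.b R.top) := ⟨by linarith, by linarith⟩
  have hJu : inJ R lam R.b (E.T^[j] u - ps lam R.b R.bot + ps lam R.b R.top) := ⟨by linarith, by linarith⟩
  have hrl := h.ret _ hbd _ hJl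
  have hru := h.ret _ hbd _ hJu
  have hlen : 0 < (σ R.b).length := by
    rw [g.len _ hbd]; omega
  obtain ⟨hd0, hl2⟩ := h.vis _ hbd _ hJl 0 hlen
  obtain ⟨_, hu2⟩ := h.vis _ hbd _ hJu 0 hlen
  have hl3 := hB.iv _ _ hl2
  have hu3 := hB.iv _ _ hu2
  rw [Function.iterate_zero, id] at hl3 hu3
  have hl1 : l < 1 := by linarith
  have hu0 : 0 ≤ u := by linarith
  by_cases hj2 : (σ R.b).length ≤ j
  · obtain ⟨q, rfl⟩ : ∃ q, j = (σ R.b).length + q := ⟨j - (σ R.b).length, by omega⟩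
    have h6 := map_it hB hu0 hu1 q
    have h7 : E.T^[(σ R.b).length] (E.T^[q] u) = E.T^[(σ R.b).length]
        (E.T^[(σ R.b).length + q] u - ps lam R.b R.bot + ps lam R.b R.top) := by
      rw [hru, ← Function.iterate_add_apply]; ring
    have h8 := inj_it hB h6.1 h6.2 hu3.1 hu3.2 _ h7
    have h9 := hmin q (by omega)
    have hpt : ∀ w ∈ R.top, 0 < lam w := fun w hw => h.pos w ((ri_mem_top h.ri w).1 hw)
    have h10 : ps lam R.b R.top + lam R.b ≤ tot lam R.top - lam R.a :=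
      ps_le_lst (ri_nd_top h.ri) hpt ((ri_mem_top h.ri _).2 hbd) (fun e => hab e.symm)
    have h11 := h.pos _ had
    linarith
  · obtain ⟨q, hq⟩ : ∃ q, (σ R.b).length = j + (q + 1) := ⟨(σ R.b).length - j - 1, by omega⟩
    have hqq : q < (σ R.b).length := by omega
    obtain ⟨hdq, hm1⟩ := h.vis _ hbd _ hJl q hqq
    obtain ⟨_, hm2⟩ := h.vis _ hbd _ hJu q hqq
    rw [hq, Function.iterate_add_apply] at hrl hru
    have k1 := map_it hB hl3.1 hl3.2 (q + 1)
    have k2 := map_it hB hu3.1 hu3.2 (q + 1)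
    have k3 := inj_it hB k1.1 k1.2 hl0 hl1 j (by rw [hrl]; ring)
    have k4 := inj_it hB k2.1 k2.2 hu0 hu1 j (by rw [hru]; ring)
    rw [Function.iterate_succ_apply'] at k3 k4
    exact hL _ _ _ hm1 hm2 k3 k4

/-- the returns of a point to a level -/
theorem ret_two (g : GX E R σ lam P S) (hB : Bij E) {e f : ℕ} (he : e < d) (hf : f < d) {z : ℝ} {p : ℕ}
    (hz : inJ R lam e z) (hp : 0 < p) (hy1 : ps lam f R.bot ≤ E.T^[p] z) (hy2 : E.T^[p] z < ps lam f R.bot + lam f) :
    (p = (σ e).length ∧ e = f) ∨ (σ e).length + (σ f).length ≤ p := by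
  have h := g.geo
  have hpb : ∀ w ∈ R.bot, 0 < lam w := fun w hw => h.pos w ((ri_mem_bot h.ri w).1 hw)
  have h5 : tot lam R.bot = tot lam R.top := tot_perm lam (h.ri.bot.trans h.ri.top.symm)
  have h6 := ps_le_tot hpb ((ri_mem_bot h.ri _).2 hf)
  have h7 := ps_le_tot hpb ((ri_mem_bot h.ri _).2 he)
  have hr := h.ret _ he _ hz
  have hJ : inJ R lam f (E.T^[p] z - ps lam f R.bot + ps lam f R.top) := ⟨by linarith, by linarith⟩
  have hrf := h.ret _ hf _ hJ
  have hlenf : 0 < (σ f).length := by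
    rw [g.len _ hf]; omega
  have hlene : 0 < (σ e).length := by
    rw [g.len _ he]; omega
  obtain ⟨_, h0⟩ := h.vis _ hf _ hJ 0 hlenf
  have h0' := hB.iv _ _ h0
  obtain ⟨_, h1⟩ := h.vis _ he _ hz 0 hlene
  have h1' := hB.iv _ _ h1
  rw [Function.iterate_zero, id] at h0' h1'
  rcases lt_trichotomy p (σ e).length with h8 | h8 | h8
  · have h9 := g.fr _ he _ hz p hp h8
    linarith
  · left
    refine ⟨h8, ?_⟩
    rw [h8, hr] at hy1 hy2
    have hz1 := hz.1
    have hz2 := hz.2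
    exact ps_disj (ri_nd_bot h.ri) hpb ((ri_mem_bot h.ri _).2 he) ((ri_mem_bot h.ri _).2 hf)
      (z := z - ps lam e R.top + ps lam e R.bot) (by linarith) (by linarith) hy1 hy2
  · right
    by_contra hc
    push Not at hc
    obtain ⟨q, rfl⟩ : ∃ q, p = q + (σ e).length := ⟨p - (σ e).length, by omega⟩
    obtain ⟨s, hs⟩ : ∃ s, (σ f).length = q + s := ⟨(σ f).length - q, by omega⟩
    have h9 := g.fr _ hf _ hJ s (by omega) (by omega)
    rw [hs, Function.iterate_add_apply] at hrf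
    have k1 := map_it hB h0'.1 h0'.2 s
    have k2 := map_it hB h1'.1 h1'.2 (σ e).length
    have k3 := inj_it hB k1.1 k1.2 k2.1 k2.2 q (by rw [hrf, ← Function.iterate_add_apply]; ring)
    rw [k3, hr] at h9
    have hz2 := hz.2
    linarith

/-- cuts between the ends of the run at the moment when the right end is minimal -/
theorem cuts (g : GX E R σ lam P S) (hB : Bij E) {l u : ℝ} {N j : ℕ} (hl0 : 0 ≤ l) (hu1 : u < 1) (hlu : l < u)
    (hA : Agr E l u N) (hL : Lmax E l u) (hR : Rmax E l u N) (hj : j ≤ N)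
    (hmin : ∀ i ≤ N, E.T^[j] u ≤ E.T^[i] u) (hr : E.T^[j] u < tot lam R.top)
    (ha : ps lam R.a R.top ≤ E.T^[j] u) (hb : ps lam R.b R.bot ≤ E.T^[j] u) (z z' : Fin d)
    (hz : (z : ℕ) = R.a ∨ E.T^[j] l < ps lam z R.top) (hz' : (z' : ℕ) = R.b ∨ E.T^[j] l < ps lam z' R.bot) :
    N ≤ P z + S z' := by
  have h := g.geo
  obtain ⟨had, hbd, hab⟩ := ri_ab h.ri
  have h1 := hull_a g hlu hA hR hj hmin hr
  have h2 := hull_b g hB hl0 hu1 hlu hA hL hj hmin hr
  have hpt : ∀ w ∈ R.top, 0 < lam w := fun w hw => h.pos w ((ri_mem_top h.ri w).1 hw)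
  have hpb : ∀ w ∈ R.bot, 0 < lam w := fun w hw => h.pos w ((ri_mem_bot h.ri w).1 hw)
  have ea : ps lam R.a R.top = tot lam R.top - lam R.a := ps_lst (ri_nd_top h.ri) (ne_top h.ri)
  have eb : ps lam R.b R.bot = tot lam R.bot - lam R.b := ps_lst (ri_nd_bot h.ri) (ne_bot h.ri)
  have h3 : E.T^[j] l < ps lam z R.top := by
    rcases hz with hz | hz
    · rw [hz]; exact h1
    · exact hz
  have h4 : E.T^[j] l < ps lam z' R.bot := by
    rcases hz' with hz' | hz'
    · rw [hz']; exact h2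
    · exact hz'
  have h5 : ps lam z R.top ≤ E.T^[j] u := by
    by_cases hza : (z : ℕ) = R.a
    · rw [hza]; exact ha
    · have h6 : ps lam z R.top + lam z ≤ tot lam R.top - lam R.a :=
        ps_le_lst (ri_nd_top h.ri) hpt ((ri_mem_top h.ri _).2 z.2) hza
      have h7 := h.pos z z.2
      linarith
  have h6 : ps lam z' R.bot ≤ E.T^[j] u := by
    by_cases hza : (z' : ℕ) = R.b
    · rw [hza]; exact hb
    · have h6 : ps lam z' R.bot + lam z' ≤ tot lam R.bot - lam R.b :=
        ps_le_lst (ri_nd_bot h.ri) hpb ((ri_mem_bot h.ri _).2 z'.2) hza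
      have h7 := h.pos z' z'.2
      linarith
  have h7 := right_cut (agr_shift hA hj) h3 h5 (g.gp z)
  have h8 := left_cut hB hl0 hu1 hlu hA hj h4 h6 (g.gs z')
  omega

/-- the numerical condition at a level -/
def Good (d : ℕ) (R : Rows) (lam : ℕ → ℝ) (P S : ℕ → ℕ) (K C : ℝ) : Prop :=
  (∀ e < d, e ≠ R.a →
    (e = R.b → ∃ z z' : Fin d, ((z : ℕ) = R.a ∨ ps lam e R.top + lam e ≤ ps lam z R.top) ∧
      ((z' : ℕ) = R.b ∨ ps lam e R.top + lam e ≤ ps lam z' R.bot) ∧
      (P z : ℝ) + S z' ≤ K * (P e + S e + 1) + C) ∧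
    ∃ z z' : Fin d, ((z : ℕ) = R.a ∨ ps lam e R.top + lam e ≤ ps lam z R.top) ∧
      ((z' : ℕ) = R.b ∨ ps lam e R.top + lam e ≤ ps lam z' R.bot) ∧
      (P z : ℝ) + S z' ≤ K * ((P e + S e + 1) + (P R.b + S R.b + 1)) + C) ∧
  ∀ f < d, f ≠ R.b →
    (f = R.a → ∃ z z' : Fin d, ((z : ℕ) = R.a ∨ ps lam f R.bot + lam f ≤ ps lam z R.top) ∧
      ((z' : ℕ) = R.b ∨ ps lam f R.bot + lam f ≤ ps lam z' R.bot) ∧
      (P z : ℝ) + S z' ≤ K * (P f + S f + 1) + C) ∧
    ∃ z z' : Fin d, ((z : ℕ) = R.a ∨ ps lam f R.bot + lam f ≤ ps lam z R.top) ∧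
      ((z' : ℕ) = R.b ∨ ps lam f R.bot + lam f ≤ ps lam z' R.bot) ∧
      (P z : ℝ) + S z' ≤ K * ((P R.a + S R.a + 1) + (P f + S f + 1)) + C

theorem run_le (g : GX E R σ lam P S) (hB : Bij E) {K C : ℝ} (hK : 0 ≤ K) (hG : Good d R lam P S K C) {l u : ℝ}
    {N j p : ℕ} (hl0 : 0 ≤ l) (hu1 : u < 1) (hlu : l < u)
    (hA : Agr E l u N) (hL : Lmax E l u) (hR : Rmax E l u N) (hj : j ≤ N)
    (hmin : ∀ i ≤ N, E.T^[j] u ≤ E.T^[i] u) (hr : E.T^[j] u < tot lam R.top)
    (ha : ps lam R.a R.top ≤ E.T^[j] u) (hb : ps lam R.b R.bot ≤ E.T^[j] u) (hp : 0 < p)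
    (hper : E.T^[p] (E.T^[j] l) = E.T^[j] u ∨ E.T^[p] (E.T^[j] u) = E.T^[j] l) : (N : ℝ) ≤ K * p + C := by
  have h := g.geo
  obtain ⟨had, hbd, hab⟩ := ri_ab h.ri
  have h1 := hull_a g hlu hA hR hj hmin hr
  have h2 := hull_b g hB hl0 hu1 hlu hA hL hj hmin hr
  have hpt : ∀ w ∈ R.top, 0 < lam w := fun w hw => h.pos w ((ri_mem_top h.ri w).1 hw)
  have hpb : ∀ w ∈ R.bot, 0 < lam w := fun w hw => h.pos w ((ri_mem_bot h.ri w).1 hw)
  have ea : ps lam R.a R.top = tot lam R.top - lam R.a := ps_lst (ri_nd_top h.ri) (ne_top h.ri)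
  have eb : ps lam R.b R.bot = tot lam R.bot - lam R.b := ps_lst (ri_nd_bot h.ri) (ne_bot h.ri)
  have et : tot lam R.bot = tot lam R.top := tot_perm lam (h.ri.bot.trans h.ri.top.symm)
  obtain ⟨-, hd1⟩ := rigid hA (le_refl l) hlu.le j hj
  have hL0 := (map_it hB hl0 (by linarith : l < 1) j).1
  have hL1 : E.T^[j] l < tot lam R.top := by linarith
  have hcut := cuts g hB hl0 hu1 hlu hA hL hR hj hmin hr ha hb
  rcases hper with hper | hper
  · obtain ⟨e, he, he1, he2⟩ := ps_find (ri_nd_top h.ri) hpt hL0 hL1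
    have hed := (ri_mem_top h.ri e).1 he
    have hea : e ≠ R.a := fun hh => by
      rw [hh] at he1
      linarith
    have hJ : inJ R lam e (E.T^[j] l) := ⟨he1, he2⟩
    have h3 := ret_two g hB hed hbd hJ hp (by rw [hper]; exact hb) (by rw [hper]; linarith)
    have h4 := hG.1 e hed hea
    rcases h3 with ⟨h3, h5⟩ | h3
    · obtain ⟨z, z', hz, hz', hle⟩ := h4.1 h5
      have h6 := hcut z z' (hz.imp id fun hh => by linarith) (hz'.imp id fun hh => by linarith)
      have h7 : (N : ℝ) ≤ P z + S z' := by exact_mod_cast h6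
      have h8 : ((P e : ℝ) + S e + 1) ≤ p := by
        have : P e + S e + 1 ≤ p := by rw [h3, g.len _ hed]
        exact_mod_cast this
      have h9 := mul_le_mul_of_nonneg_left h8 hK
      linarith
    · obtain ⟨z, z', hz, hz', hle⟩ := h4.2
      have h6 := hcut z z' (hz.imp id fun hh => by linarith) (hz'.imp id fun hh => by linarith)
      have h7 : (N : ℝ) ≤ P z + S z' := by exact_mod_cast h6
      have h8 : ((P e : ℝ) + S e + 1) + (P R.b + S R.b + 1) ≤ p := by
        have : (P e + S e + 1) + (P R.b + S R.b + 1) ≤ p := by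
          rw [g.len _ hed, g.len _ hbd] at h3; omega
        exact_mod_cast this
      have h9 := mul_le_mul_of_nonneg_left h8 hK
      linarith
  · obtain ⟨f, hf, hf1, hf2⟩ := ps_find (ri_nd_bot h.ri) hpb hL0 (by rw [et]; exact hL1)
    have hfd := (ri_mem_bot h.ri f).1 hf
    have hfb : f ≠ R.b := fun hh => by
      rw [hh] at hf1
      linarith
    have hJ : inJ R lam R.a (E.T^[j] u) := ⟨ha, by linarith⟩
    have h3 := ret_two g hB had hfd hJ hp (by rw [hper]; exact hf1) (by rw [hper]; exact hf2)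
    have h4 := hG.2 f hfd hfb
    rcases h3 with ⟨h3, h5⟩ | h3
    · obtain ⟨z, z', hz, hz', hle⟩ := h4.1 h5.symm
      have h6 := hcut z z' (hz.imp id fun hh => by linarith) (hz'.imp id fun hh => by linarith)
      have h7 : (N : ℝ) ≤ P z + S z' := by exact_mod_cast h6
      have h8 : ((P f : ℝ) + S f + 1) ≤ p := by
        have : P f + S f + 1 ≤ p := by rw [← h5, h3, g.len _ had]
        exact_mod_cast this
      have h9 := mul_le_mul_of_nonneg_left h8 hK
      linarith
    · obtain ⟨z, z', hz, hz', hle⟩ := h4.2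
      have h6 := hcut z z' (hz.imp id fun hh => by linarith) (hz'.imp id fun hh => by linarith)
      have h7 : (N : ℝ) ≤ P z + S z' := by exact_mod_cast h6
      have h8 : ((P R.a : ℝ) + S R.a + 1) + (P f + S f + 1) ≤ p := by
        have : (P R.a + S R.a + 1) + (P f + S f + 1) ≤ p := by
          rw [g.len _ had, g.len _ hfd] at h3; omega
        exact_mod_cast this
      have h9 := mul_le_mul_of_nonneg_left h8 hK
      linarith

end Pool.Agent.SYM
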