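import Pool.Agent.SYM.Hull2

/-!
# SYM/Runs: from the levels to all powers of a coding
-/

set_option autoImplicit false

namespace Pool.Agent.SYM

open Pool.Agent.RTX
open Pool.Agent.Helper44.IET

variable {d : ℕ} {E : Exchange d}

/-- all levels -/
structure Lv {d : ℕ} (E : Exchange d) (R : ℕ → Rows) (c : ℕ → Bool) (σ : ℕ → ℕ → List ℕ) (lam : ℕ → ℕ → ℝ)
    (P S : ℕ → ℕ → ℕ) : Prop where
  bij : Bij E
  g : ∀ t, GX E (R t) (σ t) (lam t) (P t) (S t)
  hR : ∀ t, R (t + 1) = step (c t) (R t)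
  hl : ∀ t, lam (t + 1) = stepL (c t) (R t) (lam t)
  hlt : ∀ t, lam t (los (c t) (R t)) < lam t (win (c t) (R t))
  r0 : tot (lam 0) (R 0).top = 1
  rt : ∀ ε : ℝ, 0 < ε → ∃ t, tot (lam t) (R t).top < ε
  hts : ∀ m : ℕ, ∃ t, ∀ x < d, m < (σ t x).length

variable {R : ℕ → Rows} {c : ℕ → Bool} {σ : ℕ → ℕ → List ℕ} {lam : ℕ → ℕ → ℝ} {P S : ℕ → ℕ → ℕ}

theorem find_level (L : Lv E R c σ lam P S) {U : ℝ} (h0 : 0 < U) (h1 : U < 1) :
    ∃ t, U < tot (lam t) (R t).top ∧ ps (lam t) (R t).a (R t).top ≤ U ∧ ps (lam t) (R t).b (R t).bot ≤ U := by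
  classical
  have hex : ∃ t, tot (lam t) (R t).top ≤ U := by
    obtain ⟨t, ht⟩ := L.rt U h0
    exact ⟨t, ht.le⟩
  obtain ⟨t, ht⟩ : ∃ t, Nat.find hex = t + 1 := by
    refine ⟨Nat.find hex - 1, ?_⟩
    have h2 := Nat.find_spec hex
    have h3 : Nat.find hex ≠ 0 := by
      intro h4
      rw [h4, L.r0] at h2
      linarith
    omega
  have h2 := Nat.find_spec hex
  rw [ht] at h2
  have h3 : ¬ tot (lam t) (R t).top ≤ U := Nat.find_min hex (by omega)
  push Not at h3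
  have hri := (L.g t).geo.ri
  obtain ⟨had, hbd, hab⟩ := ri_ab hri
  rw [L.hR, L.hl, tot_step hri] at h2
  have h4 := L.hlt t
  have ea : ps (lam t) (R t).a (R t).top = tot (lam t) (R t).top - lam t (R t).a := ps_lst (ri_nd_top hri) (ne_top hri)
  have eb : ps (lam t) (R t).b (R t).bot = tot (lam t) (R t).bot - lam t (R t).b := ps_lst (ri_nd_bot hri) (ne_bot hri)
  have et : tot (lam t) (R t).bot = tot (lam t) (R t).top := tot_perm (lam t) (hri.bot.trans hri.top.symm)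
  have hla : lam t (los (c t) (R t)) ≤ lam t (R t).a := by
    cases hc : c t with
    | false => rw [hc] at h4; exact h4.le
    | true => exact le_refl _
  have hlb : lam t (los (c t) (R t)) ≤ lam t (R t).b := by
    cases hc : c t with
    | false => exact le_refl _
    | true => rw [hc] at h4; exact h4.le
  exact ⟨t, h3, by linarith, by linarith⟩

theorem no_per (L : Lv E R c σ lam P S) {x : ℝ} (h0 : 0 ≤ x) (h1 : x < 1) {p : ℕ} (hp : 0 < p)
    (hx : E.T^[p] x = x) : False := by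
  obtain ⟨t, ht⟩ := L.hts p
  have hri := (L.g t).geo.ri
  obtain ⟨H, hH⟩ := (L.g t).hit
  obtain ⟨j, -, h2, h3⟩ := hH x h0 h1
  obtain ⟨e, he, he1, he2⟩ := ps_find (ri_nd_top hri)
    (fun w hw => (L.g t).geo.pos w ((ri_mem_top hri w).1 hw)) h2 h3
  have hed := (ri_mem_top hri e).1 he
  have h4 := (L.g t).fr e hed _ ⟨he1, he2⟩ p hp (ht e hed)
  rw [← Function.iterate_add_apply, Nat.add_comm, Function.iterate_add_apply, hx] at h4
  linarith

theorem run_bd (L : Lv E R c σ lam P S) {δ : ℝ} (hδ : 0 < δ) :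
    ∃ H : ℕ, ∀ l u : ℝ, 0 ≤ l → u < 1 → u - l = δ → ∀ n, Agr E l u n → n < H := by
  obtain ⟨t, ht⟩ := L.rt δ hδ
  obtain ⟨H, hH⟩ := (L.g t).hit
  refine ⟨H + 1, fun l u hl hu hd n hA => ?_⟩
  by_contra hc
  obtain ⟨j, hj, h2, h3⟩ := hH u (by linarith) hu
  obtain ⟨-, h4⟩ := rigid hA (le_refl l) (by linarith) j (by omega)
  have h5 := map_it L.bij hl (by linarith) j
  linarith [h5.1]

theorem run_max (L : Lv E R c σ lam P S) {K C : ℝ} (hK : 0 ≤ K)
    (hG : ∀ t, Good d (R t) (lam t) (P t) (S t) K C) {l u : ℝ} {N p : ℕ} (hl0 : 0 ≤ l) (hu1 : u < 1) (hlu : l < u)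
    (hA : Agr E l u N) (hL : Lmax E l u) (hR : Rmax E l u N) (hp : 0 < p)
    (hper : E.T^[p] l = u ∨ E.T^[p] u = l) : (N : ℝ) ≤ K * p + C := by
  obtain ⟨j, hj, hmin⟩ := Finset.exists_min_image (Finset.range (N + 1)) (fun i => E.T^[i] u) ⟨0, by simp⟩
  have hj' : j ≤ N := by
    rw [Finset.mem_range] at hj; omega
  obtain ⟨-, h1⟩ := rigid hA (le_refl l) hlu.le j hj'
  have h2 := map_it L.bij hl0 (by linarith : l < 1) j
  have h3 := map_it L.bij (by linarith : 0 ≤ u) hu1 j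
  obtain ⟨t, h4, h5, h6⟩ := find_level L (U := E.T^[j] u) (by linarith) h3.2
  refine run_le (L.g t) L.bij hK (hG t) hl0 hu1 hlu hA hL hR hj' (fun i hi => hmin i ?_) h4 h5 h6 hp ?_
  · rw [Finset.mem_range]; omega
  · rcases hper with h | h
    · left
      rw [← h, ← Function.iterate_add_apply, ← Function.iterate_add_apply, Nat.add_comm]
    · right
      rw [← h, ← Function.iterate_add_apply, ← Function.iterate_add_apply, Nat.add_comm]

theorem run_all (L : Lv E R c σ lam P S) {K C : ℝ} (hK : 0 ≤ K)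
    (hG : ∀ t, Good d (R t) (lam t) (P t) (S t) K C) {x : ℝ} {N p : ℕ} (hx0 : 0 ≤ x) (hx1 : x < 1) (hp : 0 < p)
    (hA : Agr E x (E.T^[p] x) N) : (N : ℝ) ≤ K * p + C := by
  have hne : E.T^[p] x ≠ x := fun h => no_per L hx0 hx1 hp h
  obtain ⟨n, hn, ⟨x', h0, h1, hd, hA'⟩, hnot⟩ : ∃ n, N ≤ n ∧
      (∃ x' : ℝ, 0 ≤ x' ∧ x' < 1 ∧ E.T^[p] x' - x' = E.T^[p] x - x ∧ Agr E x' (E.T^[p] x') n) ∧
      ¬ ∃ x' : ℝ, 0 ≤ x' ∧ x' < 1 ∧ E.T^[p] x' - x' = E.T^[p] x - x ∧ Agr E x' (E.T^[p] x') (n + 1) := by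
    by_contra hc
    push Not at hc
    have hall : ∀ k, ∃ x' : ℝ, 0 ≤ x' ∧ x' < 1 ∧ E.T^[p] x' - x' = E.T^[p] x - x ∧ Agr E x' (E.T^[p] x') (N + k) := by
      intro k
      induction k with
      | zero => exact ⟨x, hx0, hx1, rfl, hA⟩
      | succ k ih =>
        exact hc (N + k) (by omega) ih
    rcases lt_or_gt_of_ne hne with h | h
    · obtain ⟨H, hH⟩ := run_bd L (δ := x - E.T^[p] x) (by linarith)
      obtain ⟨x', h0, h1, hd, hA'⟩ := hall H
      have h2 := map_it L.bij h0 h1 p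
      have := hH (E.T^[p] x') x' h2.1 h1 (by linarith) _ (agr_symm hA')
      omega
    · obtain ⟨H, hH⟩ := run_bd L (δ := E.T^[p] x - x) (by linarith)
      obtain ⟨x', h0, h1, hd, hA'⟩ := hall H
      have h2 := map_it L.bij h0 h1 p
      have := hH x' (E.T^[p] x') h0 h2.2 (by linarith) _ hA'
      omega
  have hN : (N : ℝ) ≤ n := by exact_mod_cast hn
  have hy := map_it L.bij h0 h1 p
  have hR : Rmax E x' (E.T^[p] x') n := by
    intro i h2 h3
    refine hnot ⟨x', h0, h1, hd, fun j hj => ?_⟩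
    rcases Nat.lt_succ_iff_lt_or_eq.1 hj with h4 | h4
    · exact hA' j h4
    · rw [h4]; exact ⟨i, h2, h3⟩
  have hL : Lmax E x' (E.T^[p] x') := by
    intro l' u' i hl' hu' hl2 hu2
    have b1 := L.bij.iv i l' hl'
    have b2 := L.bij.iv i u' hu'
    have b3 := map_it L.bij b1.1 b1.2 p
    have h5 : E.T^[p] l' = u' := by
      refine inj1 L.bij b3.1 b3.2 b2.1 b2.2 ?_
      have e1 : E.T (E.T^[p] l') = E.T^[p] (E.T l') := by
        rw [← Function.iterate_succ_apply' E.T p l', Function.iterate_succ_apply]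
      rw [hu2, e1, hl2]
    refine hnot ⟨l', b1.1, b1.2, ?_, fun j hj => ?_⟩
    · rw [h5, ← hd]
      have h6 := E.T_of_mem hl'
      have h7 := E.T_of_mem hu'
      rw [hl2] at h6
      rw [hu2] at h7
      linarith
    · rw [h5]
      cases j with
      | zero => exact ⟨i, hl', hu'⟩
      | succ j =>
        rw [Function.iterate_succ_apply, Function.iterate_succ_apply, hl2, hu2]
        exact hA' j (by omega)
  rcases lt_or_gt_of_ne hne with h | h
  · have := run_max L hK hG hy.1 h1 (by linarith) (agr_symm hA') (fun l' u' i a b e f => hL u' l' i b a f e)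
      (fun i a b => hR i b a) hp (Or.inr rfl)
    linarith
  · have := run_max L hK hG h0 hy.2 (by linarith) hA' hL hR hp (Or.inl rfl)
    linarith

theorem pow_le (L : Lv E R c σ lam P S) {K C : ℝ} (hK : 0 ≤ K) (hC : 0 ≤ C)
    (hG : ∀ t, Good d (R t) (lam t) (P t) (S t) K C) {u : ℕ → Fin d} (hu : E.IsCoding u) {i p l : ℕ} (hp : 0 < p)
    (h : HasPower u i p l) : (l : ℝ) ≤ (1 + K) * p + C := by
  obtain ⟨x, hx, hux⟩ := hu
  have hp' : (0 : ℝ) ≤ p := Nat.cast_nonneg p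
  rcases Nat.le_total l p with hl | hl
  · have h1 : (l : ℝ) ≤ p := by exact_mod_cast hl
    nlinarith [mul_nonneg hK hp']
  · obtain ⟨N, rfl⟩ : ∃ N, l = p + N := ⟨l - p, by omega⟩
    have hm := map_it L.bij hx.1 hx.2 i
    have hA : Agr E (E.T^[i] x) (E.T^[p] (E.T^[i] x)) N := by
      intro j hj
      have h1 := hux (i + j)
      have h2 := hux (i + j + p)
      rw [← h j (by omega)] at h2
      refine ⟨u (i + j), ?_, ?_⟩
      · rw [← Function.iterate_add_apply, Nat.add_comm j]; exact h1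
      · rw [← Function.iterate_add_apply, ← Function.iterate_add_apply,
          show j + p + i = i + j + p by omega]
        exact h2
    have h3 := run_all L hK hG hm.1 hm.2 hp hA
    push_cast
    linarith

end Pool.Agent.SYM
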