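import Pool.Agent.SYM.Grow

/-!
# SYM/Sys5: the symmetric exchange of five intervals whose Rauzy path is periodic
-/

set_option autoImplicit false

namespace Pool.Agent.SYM

open Pool.Agent.RTX
open Pool.Agent.Helper44.IET

/-- the normalising factor -/
noncomputable def ww : ℝ := 1 / (13 - 3 * aa)

theorem ww_pos : 0 < ww := by
  unfold ww
  have := aa_u
  exact one_div_pos.2 (by linarith)

/-- the lengths `1, 4 - α, 1, 4 - α, 3 - α`, divided by their sum -/
noncomputable def len5 : Fin 5 → ℝ := fun i => ww * va (ea (pL 0) i)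

theorem len5_pos : ∀ j, 0 < len5 j := by
  have h1 := aa_l
  have h2 := aa_u
  intro j
  refine mul_pos ww_pos ?_
  fin_cases j <;> simp [ea, pL, va] <;> linarith

/-- the exchange -/
noncomputable def E5 : Exchange 5 where
  len := len5
  perm := Fin.revPerm
  len_pos := len5_pos
  len_sum := by
    have h2 := aa_u
    have h3 : (13 - 3 * aa : ℝ) ≠ 0 := by linarith
    rw [Fin.sum_univ_five]
    simp only [len5, ea, pL, va, ww, Fin.val_zero, Fin.val_one, Fin.val_two, List.getD_cons_zero, List.getD_cons_succ]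
    show 1 / (13 - 3 * aa) * (((1 : ℤ) : ℝ) + ((0 : ℤ) : ℝ) * aa) + 1 / (13 - 3 * aa) * (((4 : ℤ) : ℝ) + ((-1 : ℤ) : ℝ) * aa) +
      1 / (13 - 3 * aa) * (((1 : ℤ) : ℝ) + ((0 : ℤ) : ℝ) * aa) + 1 / (13 - 3 * aa) * (((4 : ℤ) : ℝ) + ((-1 : ℤ) : ℝ) * aa) +
      1 / (13 - 3 * aa) * (((3 : ℤ) : ℝ) + ((-1 : ℤ) : ℝ) * aa) = 1
    field_simp
    push_cast
    ring

theorem perm5 : E5.perm = Fin.revPerm := rfl

theorem irr5 : E5.Irreducible := by
  intro k h0 h5 h
  have h1 := h 0 h0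
  rw [perm5] at h1
  have h2 : ((Fin.revPerm (0 : Fin 5) : Fin 5) : ℕ) = 4 := by decide
  omega

theorem rows5 : rowsE E5 = sR 0 := by
  show (⟨List.range 5, (List.finRange 5).map fun k => ((Fin.revPerm.symm k : Fin 5) : ℕ)⟩ : Rows) = _
  refine rows_ext ?_ ?_
  · rfl
  · show (List.finRange 5).map (fun k => ((Fin.revPerm.symm k : Fin 5) : ℕ)) = [4, 3, 2, 1, 0]
    decide

/-- the lengths at all levels -/
noncomputable def sL : ℕ → ℕ → ℝ
  | 0 => lamE E5
  | t + 1 => stepL (cc t) (sR t) (sL t)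

/-- the words at all levels -/
def sW : ℕ → ℕ → List ℕ
  | 0 => fun x => [x]
  | t + 1 => stepW (cc t) (sR t) (sW t)

theorem sL_pre : ∀ t ≤ 16, ∀ x < 5, sL t x = ww * va (ea (pL t) x) := by
  intro t
  induction t with
  | zero =>
    intro _ x hx
    show lamE E5 x = _
    unfold lamE
    rw [dif_pos hx]
    rfl
  | succ t ih =>
    intro ht x hx
    have ih' := ih (by omega)
    have h1 : sL (t + 1) x = (if x = win (cc t) (sR t) then sL t x - sL t (los (cc t) (sR t)) else sL t x) := rfl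
    rw [h1, sR_pre t (by omega)]
    have h2 : win (cc t) (pR t) = wiP t := rfl
    have h3 : los (cc t) (pR t) = loP t := rfl
    rw [h2, h3]
    have h4 : loP t < 5 := by
      have := preA t (by omega)
      unfold loP
      cases cc t
      · exact this.2
      · exact this.1
    rw [ih' x hx, ih' _ h4, preL t (by omega) x hx]
    split_ifs
    · rw [va_sub]; ring
    · rfl

theorem sL_eq (n : ℕ) : ∀ φ ≤ 16, ∀ x < 5, sL (16 * (n + 1) + φ) x = ww * (aa ^ 2) ^ n * va (ea (tL φ) x) := by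
  have key : ∀ n, (∀ x < 5, sL (16 * (n + 1)) x = ww * (aa ^ 2) ^ n * va (ea (tL 0) x)) →
      ∀ φ ≤ 16, ∀ x < 5, sL (16 * (n + 1) + φ) x = ww * (aa ^ 2) ^ n * va (ea (tL φ) x) := by
    intro n hn φ
    induction φ with
    | zero => intro _; exact hn
    | succ φ ih =>
      intro hφ x hx
      have ih' := ih (by omega)
      have h1 : sL (16 * (n + 1) + (φ + 1)) x = (if x = win (cc (16 * (n + 1) + φ)) (sR (16 * (n + 1) + φ)) then
        sL (16 * (n + 1) + φ) x - sL (16 * (n + 1) + φ) (los (cc (16 * (n + 1) + φ)) (sR (16 * (n + 1) + φ)))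
        else sL (16 * (n + 1) + φ) x) := rfl
      rw [h1, cc_per n (by omega), sR_per n φ (by omega)]
      have h2 : win (cl φ) (tR φ) = wi φ := rfl
      have h3 : los (cl φ) (tR φ) = lo φ := rfl
      rw [h2, h3]
      have h4 : lo φ < 5 := by
        have := abL φ (by omega)
        unfold lo
        cases cl φ
        · exact this.2
        · exact this.1
      rw [ih' x hx, ih' _ h4, lamS φ (by omega) x hx]
      split_ifs
      · rw [va_sub]; ring
      · rfl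
  refine key n ?_
  induction n with
  | zero =>
    intro x hx
    rw [show 16 * (0 + 1) = 16 by norm_num, sL_pre 16 (le_refl _) x hx, pre16.2 x hx, pow_zero]
    ring
  | succ n ih =>
    intro x hx
    have h1 := key n ih 16 (le_refl _) x hx
    rw [show 16 * (n + 1 + 1) = 16 * (n + 1) + 16 by ring, h1, lamC x hx, pow_succ]
    unfold va
    push_cast
    have h2 := aa_sq
    have h3 : aa ^ 3 = 10 * aa - 3 := by
      have : aa ^ 3 = aa * aa ^ 2 := by ring
      rw [this, h2]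
      linear_combination (-3 : ℝ) * h2
    have h4 : (((ea (tL 0) x).1 : ℝ) - 3 * (ea (tL 0) x).2 + (10 * (ea (tL 0) x).2 - 3 * (ea (tL 0) x).1) * aa) =
        aa ^ 2 * ((ea (tL 0) x).1 + (ea (tL 0) x).2 * aa) := by
      linear_combination (-((ea (tL 0) x).1 : ℝ)) * h2 - ((ea (tL 0) x).2 : ℝ) * h3
    rw [h4]
    ring

theorem aa_pos : 0 < aa := by linarith [aa_l]

theorem va_lt {p q : ℤ × ℤ} (h : na (1000 * (p - q) - (1, 0)) = true) : va q < va p := by
  have h1 := va_nn h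
  rw [va_sub, va_mul _ _ rfl, va_sub] at h1
  have e1 : ((1000 : ℤ × ℤ).1 : ℝ) = 1000 := by norm_num
  have e2 : va (1, 0) = 1 := by simp [va]
  rw [e1, e2] at h1
  linarith

theorem slt (t : ℕ) : sL t (los (cc t) (sR t)) < sL t (win (cc t) (sR t)) := by
  rcases Nat.lt_or_ge t 16 with ht | ht
  · rw [sR_pre t ht.le]
    have h2 : win (cc t) (pR t) = wiP t := rfl
    have h3 : los (cc t) (pR t) = loP t := rfl
    rw [h2, h3]
    have hab := preA t ht
    have h4 : loP t < 5 := by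
      unfold loP
      cases cc t
      · exact hab.2
      · exact hab.1
    have h5 : wiP t < 5 := by
      unfold wiP
      cases cc t
      · exact hab.1
      · exact hab.2
    rw [sL_pre t ht.le _ h4, sL_pre t ht.le _ h5]
    exact mul_lt_mul_of_pos_left (va_lt (preW t ht)) ww_pos
  · obtain ⟨n, φ, hφ, rfl⟩ := mod_dec t ht
    rw [cc_per n hφ, sR_per n φ hφ.le]
    have h2 : win (cl φ) (tR φ) = wi φ := rfl
    have h3 : los (cl φ) (tR φ) = lo φ := rfl
    rw [h2, h3]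
    have hab := abL φ hφ
    have h4 : lo φ < 5 := by
      unfold lo
      cases cl φ
      · exact hab.2
      · exact hab.1
    have h5 : wi φ < 5 := by
      unfold wi
      cases cl φ
      · exact hab.1
      · exact hab.2
    rw [sL_eq n φ hφ.le _ h4, sL_eq n φ hφ.le _ h5]
    exact mul_lt_mul_of_pos_left (va_lt (lamW φ hφ)) (by have := aa_pos; have := ww_pos; positivity)

theorem gx5 (t : ℕ) : GX E5 (sR t) (sW t) (sL t) (sPS t).1 (sPS t).2 := by
  induction t with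
  | zero =>
    have := gx_init E5 (by norm_num) irr5
    rw [rows5] at this
    exact this
  | succ t ih => exact gx_step ih (cc t) (slt t)

theorem tot5 (n : ℕ) : tot (sL (16 * (n + 1))) (sR (16 * (n + 1))).top = ww * (aa ^ 2) ^ n := by
  have h1 := sR_per n 0 (by norm_num)
  rw [Nat.add_zero] at h1
  have h2 := sL_eq n 0 (by norm_num)
  simp only [Nat.add_zero] at h2
  rw [h1]
  show ([0, 1, 2, 3, 4].map (sL (16 * (n + 1)))).sum = _
  simp only [List.map_cons, List.map_nil, List.sum_cons, List.sum_nil]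
  rw [h2 0 (by norm_num), h2 1 (by norm_num), h2 2 (by norm_num), h2 3 (by norm_num), h2 4 (by norm_num)]
  simp only [ea, tL, va, List.getD_cons_zero, List.getD_cons_succ]
  push_cast
  ring

/-- the words become long -/
theorem hts5 (m : ℕ) : ∀ x < 5, m < (sW (16 * (m + 1)) x).length := by
  intro x hx
  obtain ⟨A, B, hA, -, -, hx'⟩ := grow1 m
  have h1 := hx' x hx
  have h2 := vb_nn (htE x hx)
  rw [vb_sub, vb_add, vb_n] at h2
  have h3 : (3 : ℝ) ≤ eP 0 x + eS 0 x := by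
    unfold eP eS
    push_cast at h2
    linarith
  have hbl := be_l
  have h4 : (1 : ℝ) + m * (3 * be) ≤ (1 + 3 * be) ^ m := one_add_mul_le_pow (by linarith) m
  have h9 : (0 : ℝ) ≤ m := Nat.cast_nonneg m
  have h5 : (m : ℝ) ≤ m * (3 * be) := by nlinarith
  have h6 : (m : ℝ) < A := by
    rw [add_comm (1 : ℝ) (3 * be)] at h4
    linarith
  have h8 : A * 3 ≤ A * (eP 0 x + eS 0 x) := mul_le_mul_of_nonneg_left h3 (le_trans h9 h6.le)
  have h7 : (m : ℝ) < (sPS (16 * (m + 1))).1 x + (sPS (16 * (m + 1))).2 x := by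
    linarith [h1.1.1, h1.2.1]
  have h10 : m < (sPS (16 * (m + 1))).1 x + (sPS (16 * (m + 1))).2 x := by exact_mod_cast h7
  rw [(gx5 (16 * (m + 1))).len x hx]
  omega

theorem lv5 : Lv E5 sR cc sW sL (fun t => (sPS t).1) (fun t => (sPS t).2) where
  bij := bij_of E5 (by norm_num) irr5
  g := gx5
  hR := fun _ => rfl
  hl := fun _ => rfl
  hlt := slt
  r0 := by
    have := (geo_init E5 (by norm_num) irr5).2
    rw [rows5] at this
    exact this
  rt := fun ε hε => by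
    have h1 : aa ^ 2 < 1 := by nlinarith [aa_l, aa_u]
    obtain ⟨n, hn⟩ := exists_pow_lt_of_lt_one (show 0 < ε / ww from div_pos hε ww_pos) h1
    refine ⟨16 * (n + 1), ?_⟩
    rw [tot5]
    rw [lt_div_iff₀ ww_pos] at hn
    linarith
  hts := fun m => ⟨16 * (m + 1), hts5 m⟩

theorem ps_z {lam : ℕ → ℝ} {T : List (ℤ × ℤ)} {r : ℝ} (h : ∀ z < 5, lam z = r * va (ea T z)) (x : ℕ) :
    ∀ l : List ℕ, (∀ z ∈ l, z < 5) → ps lam x l = r * va (psZ T x l) := by
  intro l
  induction l with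
  | nil =>
    intro _
    simp [ps, psZ, va]
  | cons z l ih =>
    intro hl
    show (if z = x then 0 else lam z + ps lam x l) = r * va (if z = x then (0, 0) else ea T z + psZ T x l)
    split_ifs
    · simp [va]
    · rw [ih fun w hw => hl w (List.mem_cons_of_mem _ hw), h z (hl z List.mem_cons_self), va_add]
      ring

/-- the exponent minus one -/
noncomputable def th : ℝ := (1 + be) / 3

theorem dif_le {V N : ℤ × ℤ} (h : nb (dif V N) = true) : vb N ≤ th * vb V := by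
  have h1 := vb_nn h
  unfold vb dif at h1
  unfold vb th
  push_cast at h1
  have h2 := be_sq
  have h3 : (1 + be) / 3 * ((V.1 : ℝ) + V.2 * be) = (V.1 + V.2 + (V.1 + 4 * V.2) * be) / 3 := by
    linear_combination ((V.2 : ℝ) / 3) * h2
  rw [h3]
  linarith

theorem sL_lv (t : ℕ) : ∃ r : ℝ, 0 < r ∧ ∀ x < 5, sL t x = r * va (ea (lvL t) x) := by
  rcases Nat.lt_or_ge t 16 with ht | ht
  · exact ⟨ww, ww_pos, fun x hx => by rw [(lv_pre ht).2]; exact sL_pre t ht.le x hx⟩
  · obtain ⟨n, φ, hφ, rfl⟩ := mod_dec t ht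
    refine ⟨ww * (aa ^ 2) ^ n, by have := aa_pos; have := ww_pos; positivity, fun x hx => ?_⟩
    rw [(lv_per n hφ).2]
    exact sL_eq n φ hφ.le x hx

theorem rows5L (t : ℕ) : (∀ x ∈ (lvR t).top, x < 5) ∧ (∀ x ∈ (lvR t).bot, x < 5) := by
  rcases Nat.lt_or_ge t 16 with ht | ht
  · rw [(lv_pre ht).1]; exact preC t ht
  · obtain ⟨n, φ, hφ, rfl⟩ := mod_dec t ht
    rw [(lv_per n hφ).1]; exact rowL φ hφ

/-- the two geometric conditions from the tables -/
theorem geo_le {t : ℕ} {Ls : ℤ × ℤ} {r : ℝ} (hr : 0 < r) (hlam : ∀ x < 5, sL t x = r * va (ea (lvL t) x)) {z : ℕ}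
    {l : List ℕ} (hl : ∀ x ∈ l, x < 5) (h : na (psZ (lvL t) z l - Ls) = true) : r * va Ls ≤ ps (sL t) z l := by
  have h5 := va_nn h
  rw [va_sub] at h5
  rw [ps_z hlam z l hl]
  exact mul_le_mul_of_nonneg_left (by linarith) hr.le

theorem okN_ex {R : Rows} {T : List (ℤ × ℤ)} {x : List ℕ × List ℕ} {Ls : ℤ × ℤ} {V : ℕ} (h : okN R T x Ls V = true) :
    ∃ z < 5, ∃ z' < 5, (z = R.a ∨ na (psZ T z R.top - Ls) = true) ∧ (z' = R.b ∨ na (psZ T z' R.bot - Ls) = true) ∧
      145 * (x.1.getD z 0 + x.2.getD z' 0) ≤ 208 * V := by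
  unfold okN at h
  simp only [List.any_eq_true, List.mem_range, Bool.and_eq_true, Bool.or_eq_true, Nat.beq_eq, Nat.ble_eq] at h
  obtain ⟨z, hz, z', hz', h1, h2, h3⟩ := h
  exact ⟨z, hz, z', hz', h1, h2, h3⟩

theorem okN_go {t : ℕ} (ht : t < tabN.length) {Ls : ℤ × ℤ} {r x : ℝ} (hr : 0 < r)
    (hlam : ∀ x < 5, sL t x = r * va (ea (lvL t) x)) (hx : x = r * va Ls) {V : ℕ} {V' : ℝ} (hV : (V : ℝ) = V')
    (h : okN (lvR t) (lvL t) tabN[t] Ls V = true) :
    ∃ z z' : Fin 5, ((z : ℕ) = (lvR t).a ∨ x ≤ ps (sL t) z (lvR t).top) ∧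
      ((z' : ℕ) = (lvR t).b ∨ x ≤ ps (sL t) z' (lvR t).bot) ∧
      ((sPS t).1 z : ℝ) + (sPS t).2 z' ≤ 208 / 145 * V' + 0 := by
  obtain ⟨z, hz, z', hz', h1, h2, h3⟩ := okN_ex h
  have hl := rows5L t
  refine ⟨⟨z, hz⟩, ⟨z', hz'⟩, h1.imp id fun h4 => ?_, h2.imp id fun h4 => ?_, ?_⟩
  · rw [hx]; exact geo_le hr hlam hl.1 h4
  · rw [hx]; exact geo_le hr hlam hl.2 h4
  · show ((sPS t).1 z : ℝ) + (sPS t).2 z' ≤ 208 / 145 * V' + 0
    rw [(sPS_tab t ht z hz).1, (sPS_tab t ht z' hz').2, ← hV]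
    have h4 : (145 : ℝ) * ((tabN[t].1.getD z 0 : ℕ) + (tabN[t].2.getD z' 0 : ℕ)) ≤ 208 * V := by exact_mod_cast h3
    linarith

theorem good_lo {t : ℕ} (ht : t < 128) : Good 5 (sR t) (sL t) (sPS t).1 (sPS t).2 (208 / 145) 0 := by
  have hlen : t + 1 < tabN.length := by rw [tabN0.1]; omega
  obtain ⟨-, h⟩ := walk_get tabN 0 walk_ok t hlen
  rw [Nat.zero_add] at h
  have ht' : t < tabN.length := by omega
  obtain ⟨r, hr, hlam⟩ := sL_lv t
  have hl := rows5L t
  obtain ⟨ha, hb⟩ := ab5 t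
  have hh : ∀ e < 5, ((hN tabN[t] e : ℕ) : ℝ) = (sPS t).1 e + (sPS t).2 e + 1 := by
    intro e he
    rw [(sPS_tab t ht' e he).1, (sPS_tab t ht' e he).2]
    unfold hN
    push_cast
    ring
  rw [sR_lv t]
  unfold lvN at h
  simp only [Bool.and_eq_true, List.all_eq_true, List.mem_range, Bool.or_eq_true, Nat.beq_eq,
    Bool.not_eq_true'] at h
  obtain ⟨hA, hB⟩ := h
  refine ⟨fun e he hea => ?_, fun f hf hfb => ?_⟩
  · have e1 : ps (sL t) e (lvR t).top + sL t e = r * va (psZ (lvL t) e (lvR t).top + ea (lvL t) e) := by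
      rw [ps_z hlam e _ hl.1, hlam e he, va_add]; ring
    rcases hA e he with h1 | ⟨h1, h2⟩
    · exact absurd h1 hea
    · refine ⟨fun h3 => ?_, okN_go ht' hr hlam e1 (by push_cast; rw [hh e he, hh _ hb]) h2⟩
      rcases h1 with h1 | h1
      · exfalso
        rw [Bool.eq_false_iff] at h1
        exact h1 (by rw [Nat.beq_eq]; exact h3)
      · exact okN_go ht' hr hlam e1 (hh e he) h1
  · have e1 : ps (sL t) f (lvR t).bot + sL t f = r * va (psZ (lvL t) f (lvR t).bot + ea (lvL t) f) := by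
      rw [ps_z hlam f _ hl.2, hlam f hf, va_add]; ring
    rcases hB f hf with h1 | ⟨h1, h2⟩
    · exact absurd h1 hfb
    · refine ⟨fun h3 => ?_, okN_go ht' hr hlam e1 (by push_cast; rw [hh f hf, hh _ ha]) h2⟩
      rcases h1 with h1 | h1
      · exfalso
        rw [Bool.eq_false_iff] at h1
        exact h1 (by rw [Nat.beq_eq]; exact h3)
      · exact okN_go ht' hr hlam e1 (hh f hf) h1

/-- the conditions at a level of the loop, from bounds for the zippers -/
theorem good_of {n φ : ℕ} (hφ : φ < 16) {A B D K C : ℝ} (hA : 0 ≤ A)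
    (h : ∀ x < 5, (A * eP φ x ≤ (sPS (16 * (n + 1) + φ)).1 x ∧ ((sPS (16 * (n + 1) + φ)).1 x : ℝ) ≤ B * eP φ x + D) ∧
      (A * eS φ x ≤ (sPS (16 * (n + 1) + φ)).2 x ∧ ((sPS (16 * (n + 1) + φ)).2 x : ℝ) ≤ B * eS φ x + D))
    (hB : 0 ≤ B) (hK : 0 ≤ K) (hkey : ∀ v : ℝ, 3 ≤ v → B * (th * v) + 2 * D ≤ K * (A * v) + C) :
    Good 5 (sR (16 * (n + 1) + φ)) (sL (16 * (n + 1) + φ)) (sPS (16 * (n + 1) + φ)).1 (sPS (16 * (n + 1) + φ)).2 K C := by
  obtain ⟨r, hr, hlam⟩ := sL_lv (16 * (n + 1) + φ)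
  have hl := rows5L (16 * (n + 1) + φ)
  rw [sR_lv]
  obtain ⟨hab1, hab2⟩ := ab5 (16 * (n + 1) + φ)
  obtain ⟨hR, hL⟩ := lv_per n hφ
  have hv3 : ∀ e < 5, 3 ≤ vb (hz φ e) := by
    intro e he
    have := vb_nn (htA φ hφ e he)
    rw [vb_sub, vb_n] at this
    push_cast at this
    linarith
  have hht : ∀ e < 5, A * vb (hz φ e) ≤
      ((sPS (16 * (n + 1) + φ)).1 e : ℝ) + (sPS (16 * (n + 1) + φ)).2 e + 1 := by
    intro e he
    have h1 := h e he
    show A * vb (ea (tEP φ) e + ea (tES φ) e) ≤ _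
    rw [vb_add, mul_add]
    have h2 : A * vb (ea (tEP φ) e) ≤ (sPS (16 * (n + 1) + φ)).1 e := h1.1.1
    have h3 : A * vb (ea (tES φ) e) ≤ (sPS (16 * (n + 1) + φ)).2 e := h1.2.1
    linarith
  have key : ∀ (Ls V : ℤ × ℤ) (x V' : ℝ), 3 ≤ vb V → A * vb V ≤ V' → x = r * va Ls → OkZ φ Ls V →
      ∃ z z' : Fin 5, ((z : ℕ) = (lvR (16 * (n + 1) + φ)).a ∨ x ≤ ps (sL (16 * (n + 1) + φ)) z (lvR (16 * (n + 1) + φ)).top) ∧
      ((z' : ℕ) = (lvR (16 * (n + 1) + φ)).b ∨ x ≤ ps (sL (16 * (n + 1) + φ)) z' (lvR (16 * (n + 1) + φ)).bot) ∧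
      ((sPS (16 * (n + 1) + φ)).1 z : ℝ) + (sPS (16 * (n + 1) + φ)).2 z' ≤ K * V' + C := by
    intro Ls V x V' hV3 hV hx hok
    obtain ⟨z, hz, z', hz', h1, h2, h3⟩ := hok
    rw [← hR, ← hL] at h1 h2
    refine ⟨⟨z, hz⟩, ⟨z', hz'⟩, h1.imp id fun h4 => ?_, h2.imp id fun h4 => ?_, ?_⟩
    · rw [hx]; exact geo_le hr hlam hl.1 h4
    · rw [hx]; exact geo_le hr hlam hl.2 h4
    · have h5 := dif_le h3
      rw [vb_add] at h5
      have h6 := (h z hz).1.2
      have h7 := (h z' hz').2.2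
      have h8 : B * (eP φ z + eS φ z') ≤ B * (th * vb V) := mul_le_mul_of_nonneg_left h5 hB
      have h9 := hkey _ hV3
      have h10 := mul_le_mul_of_nonneg_left hV hK
      show ((sPS (16 * (n + 1) + φ)).1 z : ℝ) + (sPS (16 * (n + 1) + φ)).2 z' ≤ K * V' + C
      linarith
  rw [hR] at hab1 hab2
  refine ⟨fun e he hea => ?_, fun f hf hfb => ?_⟩
  · have hea' : e ≠ (tR φ).a := by rw [← hR]; exact hea
    obtain ⟨k1, k2⟩ := okA φ hφ e he hea'
    have e1 : ps (sL (16 * (n + 1) + φ)) e (lvR (16 * (n + 1) + φ)).top + sL (16 * (n + 1) + φ) e =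
        r * va (psZ (tL φ) e (tR φ).top + ea (tL φ) e) := by
      rw [ps_z hlam e _ hl.1, hlam e he, va_add, hR, hL]; ring
    refine ⟨fun h1 => key _ _ _ _ (hv3 e he) (hht e he) e1 (k1 (by rw [← hR]; exact h1)), key _ _ _ _ ?_ ?_ e1 k2⟩
    · rw [vb_add]; linarith [hv3 e he, hv3 _ hab2]
    · rw [vb_add, mul_add, hR]
      exact add_le_add (hht e he) (hht _ hab2)
  · have hfb' : f ≠ (tR φ).b := by rw [← hR]; exact hfb
    obtain ⟨k1, k2⟩ := okB φ hφ f hf hfb'
    have e1 : ps (sL (16 * (n + 1) + φ)) f (lvR (16 * (n + 1) + φ)).bot + sL (16 * (n + 1) + φ) f =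
        r * va (psZ (tL φ) f (tR φ).bot + ea (tL φ) f) := by
      rw [ps_z hlam f _ hl.2, hlam f hf, va_add, hR, hL]; ring
    refine ⟨fun h1 => key _ _ _ _ (hv3 f hf) (hht f hf) e1 (k1 (by rw [← hR]; exact h1)), key _ _ _ _ ?_ ?_ e1 k2⟩
    · rw [vb_add]; linarith [hv3 f hf, hv3 _ hab1]
    · rw [vb_add, mul_add, hR]
      exact add_le_add (hht _ hab1) (hht f hf)

theorem th_pos : 0 ≤ th := by unfold th; linarith [be_l]

theorem th_le : th ≤ 14342586 / 10000000 := by unfold th; linarith [be_u]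

/-- asymptotically -/
theorem good5 {ε : ℝ} (hε : 0 < ε) : ∃ C : ℝ, 0 ≤ C ∧
    ∀ t, Good 5 (sR t) (sL t) (sPS t).1 (sPS t).2 ((1 + ε) * th) C := by
  obtain ⟨C, hC, hg⟩ := growA hε
  have hth := th_pos
  refine ⟨2 * C, by linarith, fun t => ?_⟩
  rcases Nat.lt_or_ge t 16 with ht | ht
  · have h1 := good_lo (t := t) (by omega)
    -- the zippers of the first levels are small
    have hsm : ∀ x < 5, ((sPS t).1 x : ℝ) ≤ 100 ∧ ((sPS t).2 x : ℝ) ≤ 100 := by
      intro x hx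
      have h2 : t < tabN.length := by rw [tabN0.1]; omega
      obtain ⟨h3, h4⟩ := sPS_tab t h2 x hx
      have h5 : ∀ t < 16, ∀ x < 5, (tabN.getD t ([], [])).1.getD x 0 ≤ 100 ∧ (tabN.getD t ([], [])).2.getD x 0 ≤ 100 := by
        decide +kernel
      have h6 := h5 t ht x hx
      rw [List.getD_eq_getElem _ _ h2] at h6
      rw [h3, h4]
      exact ⟨by exact_mod_cast h6.1, by exact_mod_cast h6.2⟩
    have hnn : ∀ e : ℕ, (0 : ℝ) ≤ ((sPS t).1 e : ℝ) + (sPS t).2 e + 1 := fun e => by positivity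
    refine ⟨fun e he hea => ?_, fun f hf hfb => ?_⟩
    · obtain ⟨a1, z, z', c1, c2, -⟩ := h1.1 e he hea
      refine ⟨fun h2 => ?_, z, z', c1, c2, ?_⟩
      · obtain ⟨z, z', c1, c2, -⟩ := a1 h2
        refine ⟨z, z', c1, c2, ?_⟩
        have := (hsm z z.2).1
        have := (hsm z' z'.2).2
        have := mul_nonneg (mul_nonneg (by linarith : (0 : ℝ) ≤ 1 + ε) hth) (hnn e)
        linarith
      · have := (hsm z z.2).1
        have := (hsm z' z'.2).2
        have := mul_nonneg (mul_nonneg (by linarith : (0 : ℝ) ≤ 1 + ε) hth) (add_nonneg (hnn e) (hnn (sR t).b))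
        linarith
    · obtain ⟨a1, z, z', c1, c2, -⟩ := h1.2 f hf hfb
      refine ⟨fun h2 => ?_, z, z', c1, c2, ?_⟩
      · obtain ⟨z, z', c1, c2, -⟩ := a1 h2
        refine ⟨z, z', c1, c2, ?_⟩
        have := (hsm z z.2).1
        have := (hsm z' z'.2).2
        have := mul_nonneg (mul_nonneg (by linarith : (0 : ℝ) ≤ 1 + ε) hth) (hnn f)
        linarith
      · have := (hsm z z.2).1
        have := (hsm z' z'.2).2
        have := mul_nonneg (mul_nonneg (by linarith : (0 : ℝ) ≤ 1 + ε) hth) (add_nonneg (hnn (sR t).a) (hnn f))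
        linarith
  · obtain ⟨n, φ, hφ, rfl⟩ := mod_dec t ht
    obtain ⟨A, hA, hx⟩ := hg n
    refine good_of (B := (1 + ε) * A) (D := C) hφ hA (fun x hx' => ?_) (by positivity) (by positivity) fun v _ => ?_
    · have := hx φ hφ.le x hx'
      exact ⟨⟨this.1.1, by linarith [this.1.2]⟩, ⟨this.2.1, by linarith [this.2.2]⟩⟩
    · have : (1 + ε) * A * (th * v) = (1 + ε) * th * (A * v) := by ring
      linarith

/-- exactly -/
theorem goodX (t : ℕ) : Good 5 (sR t) (sL t) (sPS t).1 (sPS t).2 (208 / 145) 0 := by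
  rcases Nat.lt_or_ge t 128 with ht | ht
  · exact good_lo ht
  · obtain ⟨n, φ, hφ, rfl⟩ := mod_dec t (by omega)
    obtain ⟨m, rfl⟩ : ∃ m, n = m + 7 := ⟨n - 7, by omega⟩
    obtain ⟨A, B, hA, hAB, hD, hsw⟩ := growB m
    have hth := th_pos
    have hth2 := th_le
    refine good_of (B := B) (D := 1000) hφ (by linarith) (fun x hx' => phase hsw φ hφ.le x hx') (by linarith)
      (by norm_num) fun v hv => ?_
    have h1 : B * th ≤ (A + A / 20000) * (14342586 / 10000000) := by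
      have : B ≤ A + A / 20000 := by linarith
      exact mul_le_mul this hth2 hth (by linarith)
    have h2 : B * (th * v) = B * th * v := by ring
    have h3 := mul_le_mul_of_nonneg_right h1 (by linarith : (0 : ℝ) ≤ v)
    have h4 : (26042300 : ℝ) * 3 ≤ A * v := mul_le_mul hA hv (by norm_num) (by linarith)
    rw [h2]
    nlinarith

end Pool.Agent.SYM
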