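import Pool.Agent.SYM.Runs

/-!
# SYM/Tab: tables for the Rauzy path: sixteen levels, then a loop of length sixteen for ever

`α = (√13 - 3) / 2` (lengths), `β = (√13 + 3) / 2` (heights); a pair `(x, y)` stands for `x + y α`, `x + y β`.
-/

set_option autoImplicit false

namespace Pool.Agent.SYM

open Pool.Agent.RTX

/-- the first sixteen steps -/
def preB : List Bool :=
  [false, true, false, false, true, true, false, false, true, false, true, true, false, false, true, true]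

/-- the loop -/
def wB : List Bool :=
  [true, false, true, true, false, false, true, false, false, true, true, false, false, false, true, false]

/-- the types of the steps of the loop -/
def cl (φ : ℕ) : Bool := wB.getD φ false

/-- the types of all steps -/
def cc (t : ℕ) : Bool := bif Nat.blt t 16 then preB.getD t false else wB.getD (t % 16) false

/-- entry of a table -/
def ea (l : List (ℤ × ℤ)) (x : ℕ) : ℤ × ℤ := l.getD x (0, 0)

/-- rows of the first sixteen levels -/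
def pR : ℕ → Rows
  | 0 => ⟨[0, 1, 2, 3, 4], [4, 3, 2, 1, 0]⟩
  | 1 => ⟨[0, 1, 2, 3, 4], [4, 0, 3, 2, 1]⟩
  | 2 => ⟨[0, 1, 4, 2, 3], [4, 0, 3, 2, 1]⟩
  | 3 => ⟨[0, 1, 4, 2, 3], [4, 0, 3, 1, 2]⟩
  | 4 => ⟨[0, 1, 4, 2, 3], [4, 0, 3, 2, 1]⟩
  | 5 => ⟨[0, 1, 3, 4, 2], [4, 0, 3, 2, 1]⟩
  | 6 => ⟨[0, 1, 2, 3, 4], [4, 0, 3, 2, 1]⟩
  | 7 => ⟨[0, 1, 2, 3, 4], [4, 1, 0, 3, 2]⟩
  | 8 => ⟨[0, 1, 2, 3, 4], [4, 2, 1, 0, 3]⟩
  | 9 => ⟨[0, 1, 2, 3, 4], [4, 2, 1, 0, 3]⟩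
  | 10 => ⟨[0, 1, 2, 3, 4], [4, 3, 2, 1, 0]⟩
  | 11 => ⟨[0, 4, 1, 2, 3], [4, 3, 2, 1, 0]⟩
  | 12 => ⟨[0, 3, 4, 1, 2], [4, 3, 2, 1, 0]⟩
  | 13 => ⟨[0, 3, 4, 1, 2], [4, 3, 2, 0, 1]⟩
  | 14 => ⟨[0, 3, 4, 1, 2], [4, 3, 2, 1, 0]⟩
  | 15 => ⟨[0, 2, 3, 4, 1], [4, 3, 2, 1, 0]⟩
  | _ => ⟨[0, 1, 2, 3, 4], [4, 3, 2, 1, 0]⟩

/-- lengths of the first sixteen levels (up to a factor), as `x + y α` -/
def pL : ℕ → List (ℤ × ℤ)
  | 0 => [(1, 0), (4, -1), (1, 0), (4, -1), (3, -1)]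
  | 1 => [(1, 0), (4, -1), (1, 0), (4, -1), (2, -1)]
  | 2 => [(1, 0), (2, 0), (1, 0), (4, -1), (2, -1)]
  | 3 => [(1, 0), (2, 0), (1, 0), (2, -1), (2, -1)]
  | 4 => [(1, 0), (2, 0), (1, 0), (1, -1), (2, -1)]
  | 5 => [(1, 0), (1, 1), (1, 0), (1, -1), (2, -1)]
  | 6 => [(1, 0), (0, 1), (1, 0), (1, -1), (2, -1)]
  | 7 => [(1, 0), (0, 1), (1, 0), (1, -1), (2, -2)]
  | 8 => [(1, 0), (0, 1), (1, 0), (1, -1), (1, -2)]
  | 9 => [(1, 0), (0, 1), (1, 0), (0, 1), (1, -2)]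
  | 10 => [(1, 0), (0, 1), (1, 0), (0, 1), (1, -3)]
  | 11 => [(0, 3), (0, 1), (1, 0), (0, 1), (1, -3)]
  | 12 => [(0, 2), (0, 1), (1, 0), (0, 1), (1, -3)]
  | 13 => [(0, 2), (0, 1), (1, -2), (0, 1), (1, -3)]
  | 14 => [(0, 2), (0, 1), (1, -3), (0, 1), (1, -3)]
  | 15 => [(-1, 5), (0, 1), (1, -3), (0, 1), (1, -3)]
  | _ => [(-1, 4), (0, 1), (1, -3), (0, 1), (1, -3)]

/-- rows of the loop -/
def tR : ℕ → Rows
  | 0 => ⟨[0, 1, 2, 3, 4], [4, 3, 2, 1, 0]⟩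
  | 1 => ⟨[0, 4, 1, 2, 3], [4, 3, 2, 1, 0]⟩
  | 2 => ⟨[0, 4, 1, 2, 3], [4, 3, 0, 2, 1]⟩
  | 3 => ⟨[0, 4, 1, 3, 2], [4, 3, 0, 2, 1]⟩
  | 4 => ⟨[0, 4, 1, 2, 3], [4, 3, 0, 2, 1]⟩
  | 5 => ⟨[0, 4, 1, 2, 3], [4, 3, 1, 0, 2]⟩
  | 6 => ⟨[0, 4, 1, 2, 3], [4, 3, 2, 1, 0]⟩
  | 7 => ⟨[0, 3, 4, 1, 2], [4, 3, 2, 1, 0]⟩
  | 8 => ⟨[0, 3, 4, 1, 2], [4, 3, 2, 0, 1]⟩
  | 9 => ⟨[0, 3, 4, 1, 2], [4, 3, 2, 1, 0]⟩
  | 10 => ⟨[0, 2, 3, 4, 1], [4, 3, 2, 1, 0]⟩
  | 11 => ⟨[0, 1, 2, 3, 4], [4, 3, 2, 1, 0]⟩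
  | 12 => ⟨[0, 1, 2, 3, 4], [4, 0, 3, 2, 1]⟩
  | 13 => ⟨[0, 1, 2, 3, 4], [4, 1, 0, 3, 2]⟩
  | 14 => ⟨[0, 1, 2, 3, 4], [4, 2, 1, 0, 3]⟩
  | 15 => ⟨[0, 1, 2, 3, 4], [4, 2, 1, 0, 3]⟩
  | _ => ⟨[0, 1, 2, 3, 4], [4, 3, 2, 1, 0]⟩

/-- lengths along the loop, as `x + y α` -/
def tL : ℕ → List (ℤ × ℤ)
  | 0 => [(-1, 4), (0, 1), (1, -3), (0, 1), (1, -3)]
  | 1 => [(-2, 7), (0, 1), (1, -3), (0, 1), (1, -3)]
  | 2 => [(-2, 7), (0, 1), (1, -3), (2, -6), (1, -3)]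
  | 3 => [(-2, 7), (-2, 7), (1, -3), (2, -6), (1, -3)]
  | 4 => [(-2, 7), (-3, 10), (1, -3), (2, -6), (1, -3)]
  | 5 => [(-2, 7), (-3, 10), (1, -3), (5, -16), (1, -3)]
  | 6 => [(-2, 7), (-3, 10), (1, -3), (4, -13), (1, -3)]
  | 7 => [(-6, 20), (-3, 10), (1, -3), (4, -13), (1, -3)]
  | 8 => [(-6, 20), (-3, 10), (7, -23), (4, -13), (1, -3)]
  | 9 => [(-6, 20), (-3, 10), (10, -33), (4, -13), (1, -3)]
  | 10 => [(-16, 53), (-3, 10), (10, -33), (4, -13), (1, -3)]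
  | 11 => [(-13, 43), (-3, 10), (10, -33), (4, -13), (1, -3)]
  | 12 => [(-13, 43), (-3, 10), (10, -33), (4, -13), (14, -46)]
  | 13 => [(-13, 43), (-3, 10), (10, -33), (4, -13), (17, -56)]
  | 14 => [(-13, 43), (-3, 10), (10, -33), (4, -13), (7, -23)]
  | 15 => [(-13, 43), (-3, 10), (10, -33), (-3, 10), (7, -23)]
  | _ => [(-13, 43), (-3, 10), (10, -33), (-3, 10), (10, -33)]

/-- the eigenvector, first half, as `x + y β` -/
def tEP : ℕ → List (ℤ × ℤ)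
  | 0 => [(0, 0), (-1, 2), (-3, 3), (-4, 2), (-6, 3)]
  | 1 => [(0, 0), (-1, 2), (-3, 3), (-4, 2), (0, 3)]
  | 2 => [(0, 0), (-1, 2), (-3, 3), (-4, 2), (0, 3)]
  | 3 => [(0, 0), (-1, 2), (-3, 3), (-1, 5), (0, 3)]
  | 4 => [(0, 0), (-1, 2), (0, 6), (-1, 5), (0, 3)]
  | 5 => [(0, 0), (-1, 2), (0, 6), (-1, 5), (0, 3)]
  | 6 => [(0, 0), (-1, 2), (0, 6), (-1, 5), (0, 3)]
  | 7 => [(0, 0), (-1, 2), (0, 6), (2, 8), (0, 3)]
  | 8 => [(0, 0), (-1, 2), (0, 6), (2, 8), (0, 3)]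
  | 9 => [(0, 0), (-1, 2), (0, 6), (2, 8), (0, 3)]
  | 10 => [(0, 0), (-1, 2), (6, 21), (2, 8), (0, 3)]
  | 11 => [(0, 0), (5, 17), (6, 21), (2, 8), (0, 3)]
  | 12 => [(0, 0), (5, 17), (6, 21), (2, 8), (0, 3)]
  | 13 => [(0, 0), (5, 17), (6, 21), (2, 8), (0, 3)]
  | 14 => [(0, 0), (5, 17), (6, 21), (2, 8), (0, 3)]
  | 15 => [(0, 0), (5, 17), (6, 21), (2, 8), (3, 12)]
  | _ => [(0, 0), (5, 17), (6, 21), (2, 8), (3, 12)]

/-- the eigenvector, second half -/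
def tES : ℕ → List (ℤ × ℤ)
  | 0 => [(6, 0), (4, 1), (3, 0), (1, 1), (0, 0)]
  | 1 => [(6, 0), (4, 1), (3, 0), (1, 1), (0, 0)]
  | 2 => [(3, 3), (4, 1), (3, 0), (1, 1), (0, 0)]
  | 3 => [(3, 3), (4, 1), (3, 0), (1, 1), (0, 0)]
  | 4 => [(3, 3), (4, 1), (3, 0), (1, 1), (0, 0)]
  | 5 => [(3, 3), (4, 7), (3, 0), (1, 1), (0, 0)]
  | 6 => [(3, 3), (4, 7), (3, 6), (1, 1), (0, 0)]
  | 7 => [(3, 3), (4, 7), (3, 6), (1, 1), (0, 0)]
  | 8 => [(6, 15), (4, 7), (3, 6), (1, 1), (0, 0)]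
  | 9 => [(6, 15), (7, 19), (3, 6), (1, 1), (0, 0)]
  | 10 => [(6, 15), (7, 19), (3, 6), (1, 1), (0, 0)]
  | 11 => [(6, 15), (7, 19), (3, 6), (1, 1), (0, 0)]
  | 12 => [(6, 18), (7, 19), (3, 6), (1, 1), (0, 0)]
  | 13 => [(6, 18), (7, 22), (3, 6), (1, 1), (0, 0)]
  | 14 => [(6, 18), (7, 22), (3, 9), (1, 1), (0, 0)]
  | 15 => [(6, 18), (7, 22), (3, 9), (1, 1), (0, 0)]
  | _ => [(6, 18), (7, 22), (3, 9), (4, 13), (0, 0)]

/-- the unit vector, first half -/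
def tIP : ℕ → List (ℤ × ℤ)
  | 0 => [(0, 0), (0, 0), (0, 0), (0, 0), (0, 0)]
  | 1 => [(0, 0), (0, 0), (0, 0), (0, 0), (1, 0)]
  | 2 => [(0, 0), (0, 0), (0, 0), (0, 0), (1, 0)]
  | 3 => [(0, 0), (0, 0), (0, 0), (0, 0), (1, 0)]
  | 4 => [(0, 0), (0, 0), (0, 0), (0, 0), (1, 0)]
  | 5 => [(0, 0), (0, 0), (0, 0), (0, 0), (1, 0)]
  | 6 => [(0, 0), (0, 0), (0, 0), (0, 0), (1, 0)]
  | 7 => [(0, 0), (0, 0), (0, 0), (1, 0), (1, 0)]
  | 8 => [(0, 0), (0, 0), (0, 0), (1, 0), (1, 0)]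
  | 9 => [(0, 0), (0, 0), (0, 0), (1, 0), (1, 0)]
  | 10 => [(0, 0), (0, 0), (1, 0), (1, 0), (1, 0)]
  | 11 => [(0, 0), (1, 0), (1, 0), (1, 0), (1, 0)]
  | 12 => [(0, 0), (1, 0), (1, 0), (1, 0), (1, 0)]
  | 13 => [(0, 0), (1, 0), (1, 0), (1, 0), (1, 0)]
  | 14 => [(0, 0), (1, 0), (1, 0), (1, 0), (1, 0)]
  | 15 => [(0, 0), (1, 0), (1, 0), (1, 0), (2, 0)]
  | _ => [(0, 0), (1, 0), (1, 0), (1, 0), (2, 0)]

/-- the unit vector, second half -/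
def tIS : ℕ → List (ℤ × ℤ)
  | 0 => [(1, 0), (0, 0), (0, 0), (0, 0), (0, 0)]
  | 1 => [(1, 0), (0, 0), (0, 0), (0, 0), (0, 0)]
  | 2 => [(1, 0), (0, 0), (0, 0), (0, 0), (0, 0)]
  | 3 => [(1, 0), (0, 0), (0, 0), (0, 0), (0, 0)]
  | 4 => [(1, 0), (0, 0), (0, 0), (0, 0), (0, 0)]
  | 5 => [(1, 0), (0, 0), (0, 0), (0, 0), (0, 0)]
  | 6 => [(1, 0), (0, 0), (0, 0), (0, 0), (0, 0)]
  | 7 => [(1, 0), (0, 0), (0, 0), (0, 0), (0, 0)]
  | 8 => [(1, 0), (0, 0), (0, 0), (0, 0), (0, 0)]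
  | 9 => [(1, 0), (0, 0), (0, 0), (0, 0), (0, 0)]
  | 10 => [(1, 0), (0, 0), (0, 0), (0, 0), (0, 0)]
  | 11 => [(1, 0), (0, 0), (0, 0), (0, 0), (0, 0)]
  | 12 => [(2, 0), (0, 0), (0, 0), (0, 0), (0, 0)]
  | 13 => [(2, 0), (1, 0), (0, 0), (0, 0), (0, 0)]
  | 14 => [(2, 0), (1, 0), (1, 0), (0, 0), (0, 0)]
  | 15 => [(2, 0), (1, 0), (1, 0), (0, 0), (0, 0)]
  | _ => [(2, 0), (1, 0), (1, 0), (2, 0), (0, 0)]

/-- the constants, first half -/
def tKP : ℕ → List (ℤ × ℤ)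
  | 0 => [(0, 0), (0, 0), (0, 0), (0, 0), (0, 0)]
  | 1 => [(0, 0), (0, 0), (0, 0), (0, 0), (1, 0)]
  | 2 => [(0, 0), (0, 0), (0, 0), (0, 0), (1, 0)]
  | 3 => [(0, 0), (0, 0), (0, 0), (1, 0), (1, 0)]
  | 4 => [(0, 0), (0, 0), (1, 0), (1, 0), (1, 0)]
  | 5 => [(0, 0), (0, 0), (1, 0), (1, 0), (1, 0)]
  | 6 => [(0, 0), (0, 0), (1, 0), (1, 0), (1, 0)]
  | 7 => [(0, 0), (0, 0), (1, 0), (3, 0), (1, 0)]
  | 8 => [(0, 0), (0, 0), (1, 0), (3, 0), (1, 0)]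
  | 9 => [(0, 0), (0, 0), (1, 0), (3, 0), (1, 0)]
  | 10 => [(0, 0), (0, 0), (7, 0), (3, 0), (1, 0)]
  | 11 => [(0, 0), (6, 0), (7, 0), (3, 0), (1, 0)]
  | 12 => [(0, 0), (6, 0), (7, 0), (3, 0), (1, 0)]
  | 13 => [(0, 0), (6, 0), (7, 0), (3, 0), (1, 0)]
  | 14 => [(0, 0), (6, 0), (7, 0), (3, 0), (1, 0)]
  | 15 => [(0, 0), (6, 0), (7, 0), (3, 0), (5, 0)]
  | _ => [(0, 0), (6, 0), (7, 0), (3, 0), (5, 0)]

/-- the constants, second half -/
def tKS : ℕ → List (ℤ × ℤ)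
  | 0 => [(0, 0), (0, 0), (0, 0), (0, 0), (0, 0)]
  | 1 => [(0, 0), (0, 0), (0, 0), (0, 0), (0, 0)]
  | 2 => [(1, 0), (0, 0), (0, 0), (0, 0), (0, 0)]
  | 3 => [(1, 0), (0, 0), (0, 0), (0, 0), (0, 0)]
  | 4 => [(1, 0), (0, 0), (0, 0), (0, 0), (0, 0)]
  | 5 => [(1, 0), (2, 0), (0, 0), (0, 0), (0, 0)]
  | 6 => [(1, 0), (2, 0), (2, 0), (0, 0), (0, 0)]
  | 7 => [(1, 0), (2, 0), (2, 0), (0, 0), (0, 0)]
  | 8 => [(5, 0), (2, 0), (2, 0), (0, 0), (0, 0)]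
  | 9 => [(5, 0), (6, 0), (2, 0), (0, 0), (0, 0)]
  | 10 => [(5, 0), (6, 0), (2, 0), (0, 0), (0, 0)]
  | 11 => [(5, 0), (6, 0), (2, 0), (0, 0), (0, 0)]
  | 12 => [(7, 0), (6, 0), (2, 0), (0, 0), (0, 0)]
  | 13 => [(7, 0), (8, 0), (2, 0), (0, 0), (0, 0)]
  | 14 => [(7, 0), (8, 0), (4, 0), (0, 0), (0, 0)]
  | 15 => [(7, 0), (8, 0), (4, 0), (0, 0), (0, 0)]
  | _ => [(7, 0), (8, 0), (4, 0), (6, 0), (0, 0)]

/-- the zippers of the levels `0, …, 128` -/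
def tabN : List (List ℕ × List ℕ) := [
  ([0, 0, 0, 0, 0], [0, 0, 0, 0, 0]),
  ([0, 0, 0, 0, 0], [1, 0, 0, 0, 0]),
  ([0, 0, 0, 0, 1], [1, 0, 0, 0, 0]),
  ([0, 0, 0, 0, 1], [1, 1, 0, 0, 0]),
  ([0, 0, 0, 0, 1], [1, 1, 1, 0, 0]),
  ([0, 0, 0, 2, 1], [1, 1, 1, 0, 0]),
  ([0, 0, 2, 2, 1], [1, 1, 1, 0, 0]),
  ([0, 0, 2, 2, 1], [1, 3, 1, 0, 0]),
  ([0, 0, 2, 2, 1], [1, 3, 3, 0, 0]),
  ([0, 0, 2, 2, 4], [1, 3, 3, 0, 0]),
  ([0, 0, 2, 2, 4], [1, 3, 3, 5, 0]),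
  ([0, 0, 2, 2, 6], [1, 3, 3, 5, 0]),
  ([0, 0, 2, 4, 6], [1, 3, 3, 5, 0]),
  ([0, 0, 2, 4, 6], [7, 3, 3, 5, 0]),
  ([0, 0, 2, 4, 6], [7, 9, 3, 5, 0]),
  ([0, 0, 10, 4, 6], [7, 9, 3, 5, 0]),
  ([0, 8, 10, 4, 6], [7, 9, 3, 5, 0]),
  ([0, 8, 10, 4, 14], [7, 9, 3, 5, 0]),
  ([0, 8, 10, 4, 14], [17, 9, 3, 5, 0]),
  ([0, 8, 10, 22, 14], [17, 9, 3, 5, 0]),
  ([0, 8, 28, 22, 14], [17, 9, 3, 5, 0]),
  ([0, 8, 28, 22, 14], [17, 37, 3, 5, 0]),
  ([0, 8, 28, 22, 14], [17, 37, 31, 5, 0]),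
  ([0, 8, 28, 40, 14], [17, 37, 31, 5, 0]),
  ([0, 8, 28, 40, 14], [77, 37, 31, 5, 0]),
  ([0, 8, 28, 40, 14], [77, 97, 31, 5, 0]),
  ([0, 8, 106, 40, 14], [77, 97, 31, 5, 0]),
  ([0, 86, 106, 40, 14], [77, 97, 31, 5, 0]),
  ([0, 86, 106, 40, 14], [92, 97, 31, 5, 0]),
  ([0, 86, 106, 40, 14], [92, 112, 31, 5, 0]),
  ([0, 86, 106, 40, 14], [92, 112, 46, 5, 0]),
  ([0, 86, 106, 40, 60], [92, 112, 46, 5, 0]),
  ([0, 86, 106, 40, 60], [92, 112, 46, 66, 0]),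
  ([0, 86, 106, 40, 153], [92, 112, 46, 66, 0]),
  ([0, 86, 106, 40, 153], [199, 112, 46, 66, 0]),
  ([0, 86, 106, 239, 153], [199, 112, 46, 66, 0]),
  ([0, 86, 305, 239, 153], [199, 112, 46, 66, 0]),
  ([0, 86, 305, 239, 153], [199, 418, 46, 66, 0]),
  ([0, 86, 305, 239, 153], [199, 418, 352, 66, 0]),
  ([0, 86, 305, 439, 153], [199, 418, 352, 66, 0]),
  ([0, 86, 305, 439, 153], [857, 418, 352, 66, 0]),
  ([0, 86, 305, 439, 153], [857, 1076, 352, 66, 0]),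
  ([0, 86, 1163, 439, 153], [857, 1076, 352, 66, 0]),
  ([0, 944, 1163, 439, 153], [857, 1076, 352, 66, 0]),
  ([0, 944, 1163, 439, 153], [1011, 1076, 352, 66, 0]),
  ([0, 944, 1163, 439, 153], [1011, 1230, 352, 66, 0]),
  ([0, 944, 1163, 439, 153], [1011, 1230, 506, 66, 0]),
  ([0, 944, 1163, 439, 659], [1011, 1230, 506, 66, 0]),
  ([0, 944, 1163, 439, 659], [1011, 1230, 506, 726, 0]),
  ([0, 944, 1163, 439, 1671], [1011, 1230, 506, 726, 0]),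
  ([0, 944, 1163, 439, 1671], [2177, 1230, 506, 726, 0]),
  ([0, 944, 1163, 2614, 1671], [2177, 1230, 506, 726, 0]),
  ([0, 944, 3338, 2614, 1671], [2177, 1230, 506, 726, 0]),
  ([0, 944, 3338, 2614, 1671], [2177, 4571, 506, 726, 0]),
  ([0, 944, 3338, 2614, 1671], [2177, 4571, 3847, 726, 0]),
  ([0, 944, 3338, 4792, 1671], [2177, 4571, 3847, 726, 0]),
  ([0, 944, 3338, 4792, 1671], [9363, 4571, 3847, 726, 0]),
  ([0, 944, 3338, 4792, 1671], [9363, 11757, 3847, 726, 0]),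
  ([0, 944, 12702, 4792, 1671], [9363, 11757, 3847, 726, 0]),
  ([0, 10308, 12702, 4792, 1671], [9363, 11757, 3847, 726, 0]),
  ([0, 10308, 12702, 4792, 1671], [11035, 11757, 3847, 726, 0]),
  ([0, 10308, 12702, 4792, 1671], [11035, 13429, 3847, 726, 0]),
  ([0, 10308, 12702, 4792, 1671], [11035, 13429, 5519, 726, 0]),
  ([0, 10308, 12702, 4792, 7190], [11035, 13429, 5519, 726, 0]),
  ([0, 10308, 12702, 4792, 7190], [11035, 13429, 5519, 7917, 0]),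
  ([0, 10308, 12702, 4792, 18226], [11035, 13429, 5519, 7917, 0]),
  ([0, 10308, 12702, 4792, 18226], [23745, 13429, 5519, 7917, 0]),
  ([0, 10308, 12702, 28530, 18226], [23745, 13429, 5519, 7917, 0]),
  ([0, 10308, 36440, 28530, 18226], [23745, 13429, 5519, 7917, 0]),
  ([0, 10308, 36440, 28530, 18226], [23745, 49877, 5519, 7917, 0]),
  ([0, 10308, 36440, 28530, 18226], [23745, 49877, 41967, 7917, 0]),
  ([0, 10308, 36440, 52276, 18226], [23745, 49877, 41967, 7917, 0]),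
  ([0, 10308, 36440, 52276, 18226], [102153, 49877, 41967, 7917, 0]),
  ([0, 10308, 36440, 52276, 18226], [102153, 128285, 41967, 7917, 0]),
  ([0, 10308, 138594, 52276, 18226], [102153, 128285, 41967, 7917, 0]),
  ([0, 112462, 138594, 52276, 18226], [102153, 128285, 41967, 7917, 0]),
  ([0, 112462, 138594, 52276, 18226], [120380, 128285, 41967, 7917, 0]),
  ([0, 112462, 138594, 52276, 18226], [120380, 146512, 41967, 7917, 0]),
  ([0, 112462, 138594, 52276, 18226], [120380, 146512, 60194, 7917, 0]),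
  ([0, 112462, 138594, 52276, 78420], [120380, 146512, 60194, 7917, 0]),
  ([0, 112462, 138594, 52276, 78420], [120380, 146512, 60194, 86338, 0]),
  ([0, 112462, 138594, 52276, 198801], [120380, 146512, 60194, 86338, 0]),
  ([0, 112462, 138594, 52276, 198801], [258995, 146512, 60194, 86338, 0]),
  ([0, 112462, 138594, 311251, 198801], [258995, 146512, 60194, 86338, 0]),
  ([0, 112462, 397569, 311251, 198801], [258995, 146512, 60194, 86338, 0]),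
  ([0, 112462, 397569, 311251, 198801], [258995, 544102, 60194, 86338, 0]),
  ([0, 112462, 397569, 311251, 198801], [258995, 544102, 457784, 86338, 0]),
  ([0, 112462, 397569, 570247, 198801], [258995, 544102, 457784, 86338, 0]),
  ([0, 112462, 397569, 570247, 198801], [1114349, 544102, 457784, 86338, 0]),
  ([0, 112462, 397569, 570247, 198801], [1114349, 1399456, 457784, 86338, 0]),
  ([0, 112462, 1511919, 570247, 198801], [1114349, 1399456, 457784, 86338, 0]),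
  ([0, 1226812, 1511919, 570247, 198801], [1114349, 1399456, 457784, 86338, 0]),
  ([0, 1226812, 1511919, 570247, 198801], [1313151, 1399456, 457784, 86338, 0]),
  ([0, 1226812, 1511919, 570247, 198801], [1313151, 1598258, 457784, 86338, 0]),
  ([0, 1226812, 1511919, 570247, 198801], [1313151, 1598258, 656586, 86338, 0]),
  ([0, 1226812, 1511919, 570247, 855387], [1313151, 1598258, 656586, 86338, 0]),
  ([0, 1226812, 1511919, 570247, 855387], [1313151, 1598258, 656586, 941726, 0]),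
  ([0, 1226812, 1511919, 570247, 2168539], [1313151, 1598258, 656586, 941726, 0]),
  ([0, 1226812, 1511919, 570247, 2168539], [2825125, 1598258, 656586, 941726, 0]),
  ([0, 1226812, 1511919, 3395318, 2168539], [2825125, 1598258, 656586, 941726, 0]),
  ([0, 1226812, 4336990, 3395318, 2168539], [2825125, 1598258, 656586, 941726, 0]),
  ([0, 1226812, 4336990, 3395318, 2168539], [2825125, 5935303, 656586, 941726, 0]),
  ([0, 1226812, 4336990, 3395318, 2168539], [2825125, 5935303, 4993631, 941726, 0]),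
  ([0, 1226812, 4336990, 6220444, 2168539], [2825125, 5935303, 4993631, 941726, 0]),
  ([0, 1226812, 4336990, 6220444, 2168539], [12155747, 5935303, 4993631, 941726, 0]),
  ([0, 1226812, 4336990, 6220444, 2168539], [12155747, 15265925, 4993631, 941726, 0]),
  ([0, 1226812, 16492738, 6220444, 2168539], [12155747, 15265925, 4993631, 941726, 0]),
  ([0, 13382560, 16492738, 6220444, 2168539], [12155747, 15265925, 4993631, 941726, 0]),
  ([0, 13382560, 16492738, 6220444, 2168539], [14324287, 15265925, 4993631, 941726, 0]),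
  ([0, 13382560, 16492738, 6220444, 2168539], [14324287, 17434465, 4993631, 941726, 0]),
  ([0, 13382560, 16492738, 6220444, 2168539], [14324287, 17434465, 7162171, 941726, 0]),
  ([0, 13382560, 16492738, 6220444, 9330710], [14324287, 17434465, 7162171, 941726, 0]),
  ([0, 13382560, 16492738, 6220444, 9330710], [14324287, 17434465, 7162171, 10272437, 0]),
  ([0, 13382560, 16492738, 6220444, 23654998], [14324287, 17434465, 7162171, 10272437, 0]),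
  ([0, 13382560, 16492738, 6220444, 23654998], [30817169, 17434465, 7162171, 10272437, 0]),
  ([0, 13382560, 16492738, 37037470, 23654998], [30817169, 17434465, 7162171, 10272437, 0]),
  ([0, 13382560, 47309764, 37037470, 23654998], [30817169, 17434465, 7162171, 10272437, 0]),
  ([0, 13382560, 47309764, 37037470, 23654998], [30817169, 64744373, 7162171, 10272437, 0]),
  ([0, 13382560, 47309764, 37037470, 23654998], [30817169, 64744373, 54472079, 10272437, 0]),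
  ([0, 13382560, 47309764, 67854640, 23654998], [30817169, 64744373, 54472079, 10272437, 0]),
  ([0, 13382560, 47309764, 67854640, 23654998], [132599013, 64744373, 54472079, 10272437, 0]),
  ([0, 13382560, 47309764, 67854640, 23654998], [132599013, 166526217, 54472079, 10272437, 0]),
  ([0, 13382560, 179908778, 67854640, 23654998], [132599013, 166526217, 54472079, 10272437, 0]),
  ([0, 145981574, 179908778, 67854640, 23654998], [132599013, 166526217, 54472079, 10272437, 0]),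
  ([0, 145981574, 179908778, 67854640, 23654998], [156254012, 166526217, 54472079, 10272437, 0]),
  ([0, 145981574, 179908778, 67854640, 23654998], [156254012, 190181216, 54472079, 10272437, 0]),
  ([0, 145981574, 179908778, 67854640, 23654998], [156254012, 190181216, 78127078, 10272437, 0]),
  ([0, 145981574, 179908778, 67854640, 101782076], [156254012, 190181216, 78127078, 10272437, 0]),
  ([0, 145981574, 179908778, 67854640, 101782076], [156254012, 190181216, 78127078, 112054514, 0])]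

/-- `x + y β` is at least zero -/
def nb (q : ℤ × ℤ) : Bool :=
  (decide (0 ≤ q.2) && decide (0 ≤ 10000000 * q.1 + 33027756 * q.2)) ||
    (decide (q.2 < 0) && decide (0 ≤ 10000000 * q.1 + 33027757 * q.2))

/-- `x + y α` is at least zero -/
def na (q : ℤ × ℤ) : Bool :=
  (decide (0 ≤ q.2) && decide (0 ≤ 10000000 * q.1 + 3027756 * q.2)) ||
    (decide (q.2 < 0) && decide (0 ≤ 10000000 * q.1 + 3027757 * q.2))

/-- the recursion of the path -/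
def RecZ (tp ts : ℕ → List (ℤ × ℤ)) (u : ℤ × ℤ) : Prop :=
  ∀ φ < 16, ∀ x < 5,
    (ea (tp (φ + 1)) x = if cl φ = true ∧ x = (tR φ).a then
      ea (tp φ) (tR φ).a + (ea (tp φ) (tR φ).b + ea (ts φ) (tR φ).b + u) else ea (tp φ) x) ∧
    (ea (ts (φ + 1)) x = if cl φ = false ∧ x = (tR φ).b then
      ea (ts φ) (tR φ).b + (ea (tp φ) (tR φ).a + ea (ts φ) (tR φ).a + u) else ea (ts φ) x)

instance (tp ts : ℕ → List (ℤ × ℤ)) (u : ℤ × ℤ) : Decidable (RecZ tp ts u) := by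
  unfold RecZ; infer_instance

theorem recE : RecZ tEP tES (0, 0) := by decide +kernel

theorem recI : RecZ tIP tIS (0, 0) := by decide +kernel

theorem recK : RecZ tKP tKS (1, 0) := by decide +kernel

theorem rowS : ∀ φ < 16, (step (cl φ) (tR φ)).top = (tR (φ + 1)).top ∧ (step (cl φ) (tR φ)).bot = (tR (φ + 1)).bot := by
  decide +kernel

theorem rowC : (tR 16).top = (tR 0).top ∧ (tR 16).bot = (tR 0).bot := by decide +kernel

theorem rowL : ∀ φ < 16, (∀ x ∈ (tR φ).top, x < 5) ∧ (∀ x ∈ (tR φ).bot, x < 5) := by decide +kernel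

theorem abL : ∀ φ < 16, (tR φ).a < 5 ∧ (tR φ).b < 5 := by decide +kernel

/-- the winner -/
def wi (φ : ℕ) : ℕ := bif cl φ then (tR φ).b else (tR φ).a

/-- the loser -/
def lo (φ : ℕ) : ℕ := bif cl φ then (tR φ).a else (tR φ).b

theorem lamS : ∀ φ < 16, ∀ x < 5, ea (tL (φ + 1)) x = if x = wi φ then ea (tL φ) x - ea (tL φ) (lo φ) else ea (tL φ) x := by
  decide +kernel

/-- strict inequality for the lengths, with margin -/
theorem lamW : ∀ φ < 16, na (1000 * (ea (tL φ) (wi φ) - ea (tL φ) (lo φ)) - (1, 0)) = true := by decide +kernel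

theorem lamC : ∀ x < 5, ea (tL 16) x = ((ea (tL 0) x).1 - 3 * (ea (tL 0) x).2, 10 * (ea (tL 0) x).2 - 3 * (ea (tL 0) x).1) := by
  decide +kernel

/-- times `β ^ 2` -/
def mb (q : ℤ × ℤ) : ℤ × ℤ := (q.1 + 3 * q.2, 3 * q.1 + 10 * q.2)

theorem eigC : ∀ x < 5, ea (tEP 16) x = mb (ea (tEP 0) x) ∧ ea (tES 16) x = mb (ea (tES 0) x) := by decide +kernel

theorem ini : ∀ x < 5, ea (tIP 0) x = (0, 0) ∧ ea (tIS 0) x = (if x = 0 then (1, 0) else (0, 0)) ∧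
    ea (tKP 0) x = (0, 0) ∧ ea (tKS 0) x = (0, 0) := by decide +kernel

theorem e0 : ea (tES 0) 0 = (6, 0) := by decide +kernel

/-- nonnegative entries, upper bound `1000` -/
theorem nonN : ∀ φ < 17, ∀ x < 5,
    (nb (ea (tEP φ) x) = true ∧ nb (ea (tES φ) x) = true) ∧
    (nb (ea (tIP φ) x) = true ∧ nb (ea (tIS φ) x) = true) ∧
    (nb (ea (tKP φ) x) = true ∧ nb (ea (tKS φ) x) = true) ∧
    (nb ((1000, 0) - ea (tEP φ) x) = true ∧ nb ((1000, 0) - ea (tES φ) x) = true) ∧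
    (nb ((1000, 0) - ea (tKP φ) x) = true ∧ nb ((1000, 0) - ea (tKS φ) x) = true) := by decide +kernel

/-- `8 I ≥ E`, `K ≤ 2 E`, `K ≥ E` after one turn -/
theorem cmp : ∀ x < 5,
    (nb (8 * ea (tIP 16) x - ea (tEP 0) x) = true ∧ nb (8 * ea (tIS 16) x - ea (tES 0) x) = true) ∧
    (nb (2 * ea (tEP 0) x - ea (tKP 16) x) = true ∧ nb (2 * ea (tES 0) x - ea (tKS 16) x) = true) ∧
    (nb (ea (tKP 16) x - ea (tEP 0) x) = true ∧ nb (ea (tKS 16) x - ea (tES 0) x) = true) := by decide +kernel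

/-- the heights are at least `3` -/
theorem htE : ∀ x < 5, nb (ea (tEP 0) x + ea (tES 0) x - (3, 0)) = true := by decide +kernel

/-- left ends of the intervals in a row -/
def psZ (l : List (ℤ × ℤ)) (x : ℕ) : List ℕ → ℤ × ℤ
  | [] => (0, 0)
  | z :: r => if z = x then (0, 0) else ea l z + psZ l x r

/-- `(1 + β) V - 3 N` -/
def dif (V N : ℤ × ℤ) : ℤ × ℤ := (V.1 + V.2 - 3 * N.1, V.1 + 4 * V.2 - 3 * N.2)

/-- height in the table -/
def hz (φ x : ℕ) : ℤ × ℤ := ea (tEP φ) x + ea (tES φ) x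

/-- good cuts to the right of `Ls` for the period `V` -/
def OkZ (φ : ℕ) (Ls V : ℤ × ℤ) : Prop :=
  ∃ z < 5, ∃ z' < 5, (z = (tR φ).a ∨ na (psZ (tL φ) z (tR φ).top - Ls) = true) ∧
    (z' = (tR φ).b ∨ na (psZ (tL φ) z' (tR φ).bot - Ls) = true) ∧
    nb (dif V (ea (tEP φ) z + ea (tES φ) z')) = true

instance (φ : ℕ) (Ls V : ℤ × ℤ) : Decidable (OkZ φ Ls V) := by
  unfold OkZ; infer_instance

theorem okA : ∀ φ < 16, ∀ e < 5, e ≠ (tR φ).a →
    (e = (tR φ).b → OkZ φ (psZ (tL φ) e (tR φ).top + ea (tL φ) e) (hz φ e)) ∧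
    OkZ φ (psZ (tL φ) e (tR φ).top + ea (tL φ) e) (hz φ e + hz φ (tR φ).b) := by decide +kernel

theorem okB : ∀ φ < 16, ∀ f < 5, f ≠ (tR φ).b →
    (f = (tR φ).a → OkZ φ (psZ (tL φ) f (tR φ).bot + ea (tL φ) f) (hz φ f)) ∧
    OkZ φ (psZ (tL φ) f (tR φ).bot + ea (tL φ) f) (hz φ (tR φ).a + hz φ f) := by decide +kernel


/-- the winner in the first sixteen steps -/
def wiP (t : ℕ) : ℕ := bif cc t then (pR t).b else (pR t).a

/-- the loser in the first sixteen steps -/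
def loP (t : ℕ) : ℕ := bif cc t then (pR t).a else (pR t).b

theorem preS : ∀ t < 16, (step (cc t) (pR t)).top = (pR (t + 1)).top ∧ (step (cc t) (pR t)).bot = (pR (t + 1)).bot := by
  decide +kernel

theorem preL : ∀ t < 16, ∀ x < 5,
    ea (pL (t + 1)) x = if x = wiP t then ea (pL t) x - ea (pL t) (loP t) else ea (pL t) x := by decide +kernel

theorem preW : ∀ t < 16, na (1000 * (ea (pL t) (wiP t) - ea (pL t) (loP t)) - (1, 0)) = true := by decide +kernel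

theorem preA : ∀ t < 16, (pR t).a < 5 ∧ (pR t).b < 5 := by decide +kernel

theorem preC : ∀ t < 16, (∀ x ∈ (pR t).top, x < 5) ∧ (∀ x ∈ (pR t).bot, x < 5) := by decide +kernel

theorem pre16 : ((pR 16).top = (tR 0).top ∧ (pR 16).bot = (tR 0).bot) ∧ ∀ x < 5, ea (pL 16) x = ea (tL 0) x := by
  decide +kernel

/-- the heights in the loop are at least `3` -/
theorem htA : ∀ φ < 16, ∀ x < 5, nb (hz φ x - (3, 0)) = true := by decide +kernel

/-- rows of any level -/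
def lvR (t : ℕ) : Rows := bif Nat.blt t 16 then pR t else tR (t % 16)

/-- lengths of any level, up to a factor -/
def lvL (t : ℕ) : List (ℤ × ℤ) := bif Nat.blt t 16 then pL t else tL (t % 16)

/-- one step of the zippers -/
def stN (c : Bool) (R : Rows) (x : List ℕ × List ℕ) : List ℕ × List ℕ :=
  bif c then (x.1.set R.a (x.1.getD R.a 0 + (x.1.getD R.b 0 + x.2.getD R.b 0 + 1)), x.2)
  else (x.1, x.2.set R.b (x.2.getD R.b 0 + (x.1.getD R.a 0 + x.2.getD R.a 0 + 1)))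

/-- exact condition -/
def okN (R : Rows) (T : List (ℤ × ℤ)) (x : List ℕ × List ℕ) (Ls : ℤ × ℤ) (V : ℕ) : Bool :=
  (List.range 5).any fun z => (List.range 5).any fun z' =>
    (Nat.beq z R.a || na (psZ T z R.top - Ls)) && ((Nat.beq z' R.b || na (psZ T z' R.bot - Ls)) &&
      Nat.ble (145 * (x.1.getD z 0 + x.2.getD z' 0)) (208 * V))

/-- exact height -/
def hN (x : List ℕ × List ℕ) (e : ℕ) : ℕ := x.1.getD e 0 + x.2.getD e 0 + 1

/-- exact condition for a level -/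
def lvN (R : Rows) (T : List (ℤ × ℤ)) (x : List ℕ × List ℕ) : Bool :=
  ((List.range 5).all fun e => Nat.beq e R.a ||
    ((!(Nat.beq e R.b) || okN R T x (psZ T e R.top + ea T e) (hN x e)) &&
      okN R T x (psZ T e R.top + ea T e) (hN x e + hN x R.b))) &&
  (List.range 5).all fun f => Nat.beq f R.b ||
    ((!(Nat.beq f R.a) || okN R T x (psZ T f R.bot + ea T f) (hN x f)) &&
      okN R T x (psZ T f R.bot + ea T f) (hN x R.a + hN x f))

/-- check of consecutive entries -/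
def walk : ℕ → List (List ℕ × List ℕ) → Bool
  | t, x :: y :: l => decide (x.1.length = 5 ∧ x.2.length = 5 ∧ stN (cc t) (lvR t) x = y) &&
      (lvN (lvR t) (lvL t) x && walk (t + 1) (y :: l))
  | _, _ => true

theorem walk_ok : walk 0 tabN = true := by decide +kernel

theorem tabN0 : tabN.length = 129 ∧ tabN[0]? = some ([0, 0, 0, 0, 0], [0, 0, 0, 0, 0]) ∧
    tabN[16]? = some ([0, 8, 10, 4, 6], [7, 9, 3, 5, 0]) ∧
    tabN[128]? = some ([0, 145981574, 179908778, 67854640, 101782076], [156254012, 190181216, 78127078, 112054514, 0]) := by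
  decide +kernel

/-- the zippers at level `16` -/
def s16P : List ℕ := [0, 8, 10, 4, 6]

/-- the zippers at level `16` -/
def s16S : List ℕ := [7, 9, 3, 5, 0]

theorem s16 : ∀ x < 5,
    (nb ((((s16P.getD x 0 : ℕ) : ℤ), 0) - ea (tEP 0) x) = true ∧ nb ((((s16S.getD x 0 : ℕ) : ℤ), 0) - ea (tES 0) x) = true) ∧
    (nb (2 * ea (tEP 0) x - (((s16P.getD x 0 : ℕ) : ℤ), 0)) = true ∧
      nb (2 * ea (tES 0) x - (((s16S.getD x 0 : ℕ) : ℤ), 0)) = true) := by decide +kernel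

/-- the zippers at level `128` -/
def s128P : List ℕ := [0, 145981574, 179908778, 67854640, 101782076]

/-- the zippers at level `128` -/
def s128S : List ℕ := [156254012, 190181216, 78127078, 112054514, 0]

theorem s128 : ∀ x < 5,
    (nb ((((s128P.getD x 0 : ℕ) : ℤ), 0) - 26042300 * ea (tEP 0) x) = true ∧
      nb ((((s128S.getD x 0 : ℕ) : ℤ), 0) - 26042300 * ea (tES 0) x) = true) ∧
    (nb (26042390 * ea (tEP 0) x - (((s128P.getD x 0 : ℕ) : ℤ), 0)) = true ∧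
      nb (26042390 * ea (tES 0) x - (((s128S.getD x 0 : ℕ) : ℤ), 0)) = true) := by decide +kernel

end Pool.Agent.SYM
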